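import Mathlib

/-!
# Definitions: path manifolds of volume preserving diffeomorphisms of the flat torus

This file contains all the definitions used in the statements of the hand-ins for MP_45c189_gt.
The surface is the flat torus `T² = ℝ²/ℤ²`.
-/

open Filter Topology Set MeasureTheory
open scoped Manifold ContDiff ENNReal

noncomputable section

namespace Pool.Agent.Lib.MP_45c189_gt

/-! ### The flat torus and the group `𝒟^s_μ(T²)` -/

/-- The flat torus `T² = ℝ²/ℤ²`; its area (of total mass one) is the measure `volume`. -/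
abbrev T2 : Type := UnitAddTorus (Fin 2)

/-- The Euclidean plane, which is the tangent space of the flat torus at every point. -/
abbrev R2 : Type := EuclideanSpace ℝ (Fin 2)

/-- The projection `ℝ² → T²`. -/
def proj (v : R2) : T2 := fun i => (v i : UnitAddCircle)

/-- `f : T² → ℂ` is of Sobolev class `H^s`: it is square integrable and
`∑ₙ (1 + |n|²)^s |f̂(n)|² < ∞`, the sum being over `n ∈ ℤ²`. -/
def MemHs (s : ℝ) (f : T2 → ℂ) : Prop :=
  MemLp f 2 volume ∧
    Summable fun n : Fin 2 → ℤ =>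
      (1 + ∑ i, (n i : ℝ) ^ 2) ^ s * ‖UnitAddTorus.mFourierCoeff f n‖ ^ 2

/-- A map `f : T² → T²` is of Sobolev class `H^s`. As usual this is expressed through the
isometric embedding `x ↦ (2π)⁻¹ (e^{2πi x₁}, e^{2πi x₂})` of `T²` into `ℂ² = ℝ⁴`. -/
def MemHsMap (s : ℝ) (f : T2 → T2) : Prop :=
  ∀ i : Fin 2, MemHs s fun x => (fourier 1 (f x i) : ℂ)

/-- The group `𝒟^s_μ(T²)` of volume preserving diffeomorphisms of the flat torus of class `H^s`
(`s > 2`): the volume preserving homeomorphisms which are of class `H^s` together with their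
inverse. -/
structure SDiff (s : ℝ) where
  /-- the underlying homeomorphism -/
  toHomeo : T2 ≃ₜ T2
  volumePreserving : MeasurePreserving toHomeo volume volume
  memHs : MemHsMap s toHomeo
  memHs_symm : MemHsMap s toHomeo.symm

instance (s : ℝ) : CoeFun (SDiff s) (fun _ => T2 → T2) := ⟨fun η => η.toHomeo⟩

/-- A curve of diffeomorphisms is smooth (jointly in time and space) if it is induced by a smooth
map `ℝ × ℝ² → ℝ²`. -/
def IsSmoothPath {s : ℝ} (γ : unitInterval → SDiff s) : Prop :=
  ∃ G : ℝ × R2 → R2, ContDiff ℝ ∞ G ∧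
    ∀ (t : unitInterval) (x : R2), γ t (proj x) = proj (G (t, x))

/-! ### Velocities and kinetic energy -/

/-- The measure `dx dt` on `T² × [0,1]`. -/
def stMeasure : Measure (T2 × ℝ) := (volume : Measure T2).prod (volume.restrict (Icc (0 : ℝ) 1))

/-- The Hilbert space `L²(T² × [0,1]; ℝ²)` in which the velocities of curves live. -/
abbrev L2 : Type := Lp R2 2 stMeasure

/-- `w(x,t)` is the velocity `γ̇(t)(x)` of the curve of maps `γ`: for almost every particle `x`
one has `γ(t)(x) = γ(0)(x) + ∫₀ᵗ w(x,τ) dτ` modulo `ℤ²` for all times `t ∈ [0,1]`. -/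
def IsVelocity (γ : unitInterval → T2 → T2) (w : T2 × ℝ → R2) : Prop :=
  ∀ᵐ x : T2, ∀ t : unitInterval, γ t x = γ 0 x + proj (∫ τ in (0 : ℝ)..t, w (x, τ))

/-! ### Finsler structures and the Palais–Smale condition -/

section

variable (F : Type*) [NormedAddCommGroup F] [NormedSpace ℝ F]
  (P : Type*) [TopologicalSpace P] [ChartedSpace F P]

/-- A choice of a norm on every tangent space of the manifold `P`, modelled on the normed
space `F`. -/
structure TangentNorm where
  /-- the norm of the tangent vector `v` at the point `p` -/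
  nrm : ∀ p : P, TangentSpace 𝓘(ℝ, F) p → ℝ
  nonneg : ∀ p v, 0 ≤ nrm p v
  eq_zero : ∀ p v, nrm p v = 0 → v = 0
  smul : ∀ (p : P) (c : ℝ) (v : TangentSpace 𝓘(ℝ, F) p), nrm p (c • v) = |c| * nrm p v
  add_le : ∀ (p : P) (v w : TangentSpace 𝓘(ℝ, F) p), nrm p (v + w) ≤ nrm p v + nrm p w

end

section

variable {F : Type*} [NormedAddCommGroup F] [NormedSpace ℝ F]
  {P : Type*} [TopologicalSpace P] [ChartedSpace F P]

/-- The norms form a continuous function on the tangent bundle (a Finsler structure). -/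
def TangentNorm.IsContinuous [IsManifold 𝓘(ℝ, F) 1 P] (ν : TangentNorm F P) : Prop :=
  Continuous fun X : TangentBundle 𝓘(ℝ, F) P => ν.nrm X.proj X.snd

/-- The length of a curve `c : [0,1] → P`. -/
def TangentNorm.length (ν : TangentNorm F P) (c : ℝ → P) : ℝ≥0∞ :=
  ∫⁻ t in Icc (0 : ℝ) 1,
    ENNReal.ofReal (ν.nrm (c t) (mfderivWithin 𝓘(ℝ, ℝ) 𝓘(ℝ, F) c (Icc 0 1) t (1 : ℝ)))

/-- The Finsler distance: the infimum of the lengths of the `C¹` curves joining two points
(it is infinite for points in different components). -/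
def TangentNorm.finslerDist (ν : TangentNorm F P) (p q : P) : ℝ≥0∞ :=
  ⨅ (c : ℝ → P) (_ : ContMDiffOn 𝓘(ℝ, ℝ) 𝓘(ℝ, F) 1 c (Icc 0 1)) (_ : c 0 = p) (_ : c 1 = q),
    ν.length c

/-- The differential `df_p(v)` of a real valued function `f` on `P`. -/
def differential (f : P → ℝ) (p : P) (v : TangentSpace 𝓘(ℝ, F) p) : ℝ :=
  mfderiv 𝓘(ℝ, F) 𝓘(ℝ, ℝ) f p v

/-- The Palais–Smale condition for `f` with respect to the given norms on the tangent spaces: every
sequence `u` with `f(uₙ)` bounded and `‖df(uₙ)‖ → 0` (dual norm) has a convergent subsequence. -/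
def PalaisSmale (ν : TangentNorm F P) (f : P → ℝ) : Prop :=
  ∀ u : ℕ → P, (∃ C : ℝ, ∀ n, |f (u n)| ≤ C) →
    (∃ ε : ℕ → ℝ, Tendsto ε atTop (𝓝 0) ∧ ∀ n (v : TangentSpace 𝓘(ℝ, F) (u n)),
      |differential f (u n) v| ≤ ε n * ν.nrm (u n) v) →
    ∃ (p : P) (j : ℕ → ℕ), StrictMono j ∧ Tendsto (fun n => u (j n)) atTop (𝓝 p)

end

/-! ### Manifolds of curves in `𝒟^s_μ(T²)` -/

/-- A *path manifold*: a manifold `P` (modelled on the normed space `F`) whose points are curves
in `𝒟^s_μ(T²)` from the identity to `φ`, of finite kinetic energy, such that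

* the energy `E(γ) = ½ ∫₀¹ ‖γ̇(t)‖²_{L²} dt` is a `C¹` function on `P`;
* the evaluations `γ ↦ γ(t)(x) ∈ T²` are continuous on `P`;
* `P` is stable under smooth monotone reparametrisations `γ ∘ θ` of time and under composition
  `t ↦ β(t) ∘ γ(t)` with smooth loops `β` of volume preserving diffeomorphisms based at the
  identity. -/
structure PathManifold (s : ℝ) (φ : SDiff s)
    (F : Type*) [NormedAddCommGroup F] [NormedSpace ℝ F]
    (P : Type*) [TopologicalSpace P] [ChartedSpace F P] where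
  /-- the curve `t ↦ γ(t)` represented by the point `p` -/
  curve : P → unitInterval → SDiff s
  curve_zero : ∀ p x, curve p 0 x = x
  curve_one : ∀ p x, curve p 1 x = φ x
  /-- the velocity `γ̇` of the curve represented by `p` -/
  velocity : P → L2
  isVelocity : ∀ p, IsVelocity (fun t => curve p t) (velocity p)
  energy_contMDiff : ContMDiff 𝓘(ℝ, F) 𝓘(ℝ, ℝ) 1 fun p => (1 / 2 : ℝ) * ‖velocity p‖ ^ 2
  eval_continuous : ∀ (t : unitInterval) (x : T2), Continuous fun p => curve p t x
  reparam_mem : ∀ (p : P) (θ : ℝ → ℝ), ContDiff ℝ ∞ θ → Monotone θ → θ 0 = 0 → θ 1 = 1 →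
    ∃ q : P, ∀ (t t' : unitInterval), (t' : ℝ) = θ t → ∀ x, curve q t x = curve p t' x
  left_mem : ∀ (p : P) (β : unitInterval → SDiff s), IsSmoothPath β → (∀ x, β 0 x = x) →
    (∀ x, β 1 x = x) → ∃ q : P, ∀ t x, curve q t x = β t (curve p t x)

/-- The kinetic energy `E(γ) = ½ ∫₀¹ ‖γ̇(t)‖²_{L²} dt` as a function on the path manifold. -/
def PathManifold.energy {s : ℝ} {φ : SDiff s}
    {F : Type*} [NormedAddCommGroup F] [NormedSpace ℝ F]
    {P : Type*} [TopologicalSpace P] [ChartedSpace F P] (Γ : PathManifold s φ F P) (p : P) : ℝ :=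
  (1 / 2 : ℝ) * ‖Γ.velocity p‖ ^ 2

end Pool.Agent.Lib.MP_45c189_gt
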