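import Pool.Agent.Lib.MP_45c189_gt.Defs

section

/-!
# Ekeland's principle and almost critical points on Finsler manifolds
-/

open Filter Topology Set MeasureTheory
open scoped Manifold ContDiff ENNReal

namespace Pool.Agent.Lib.MP_45c189_gt

/-- **Ekeland's variational principle**, in a form suited to extended metric spaces. -/
theorem ekeland {X : Type*} [EMetricSpace X] [CompleteSpace X] {f : X → ℝ}
    (hf : Continuous f) {b : ℝ} (hbdd : ∀ x, b ≤ f x) {ε : ℝ} (hε : 0 < ε) (x₀ : X) :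
    ∃ y, f y ≤ f x₀ ∧ edist y x₀ ≤ ENNReal.ofReal ((f x₀ - f y) / ε) ∧
      ∀ z, f z ≤ f y → edist z y ≤ ENNReal.ofReal ((f y - f z) / ε) → f z = f y := by
  classical
  -- the set of admissible successors
  let S : X → Set X := fun x => {z | f z ≤ f x ∧ edist z x ≤ ENNReal.ofReal ((f x - f z) / ε)}
  have hself : ∀ x, x ∈ S x := fun x => ⟨le_rfl, by simp⟩
  have htrans : ∀ x y z, y ∈ S x → z ∈ S y → z ∈ S x := by
    intro x y z hy hz
    refine ⟨hz.1.trans hy.1, ?_⟩
    calc edist z x ≤ edist z y + edist y x := edist_triangle _ _ _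
      _ ≤ ENNReal.ofReal ((f y - f z) / ε) + ENNReal.ofReal ((f x - f y) / ε) :=
        add_le_add hz.2 hy.2
      _ = ENNReal.ofReal ((f y - f z) / ε + (f x - f y) / ε) := by
        rw [ENNReal.ofReal_add]
        · exact div_nonneg (sub_nonneg.2 hz.1) hε.le
        · exact div_nonneg (sub_nonneg.2 hy.1) hε.le
      _ = ENNReal.ofReal ((f x - f z) / ε) := by congr 1; ring
  have hclosed : ∀ x, IsClosed (S x) := by
    intro x
    apply IsClosed.inter
    · exact isClosed_le hf continuous_const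
    · exact isClosed_le (continuous_id.edist continuous_const)
        (ENNReal.continuous_ofReal.comp ((continuous_const.sub hf).div_const ε))
  -- the infimum of f on S x
  let m : X → ℝ := fun x => sInf (f '' S x)
  have hm_bdd : ∀ x, BddBelow (f '' S x) := fun x => ⟨b, by rintro _ ⟨z, -, rfl⟩; exact hbdd z⟩
  have hm_ne : ∀ x, (f '' S x).Nonempty := fun x => ⟨f x, x, hself x, rfl⟩
  have hm_le : ∀ x z, z ∈ S x → m x ≤ f z := fun x z hz => csInf_le (hm_bdd x) ⟨z, hz, rfl⟩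
  have hstep : ∀ x, ∃ z ∈ S x, f z ≤ (f x + m x) / 2 := by
    intro x
    by_cases h : m x < f x
    · have : m x < (f x + m x) / 2 := by linarith
      obtain ⟨_, ⟨z, hz, rfl⟩, hz'⟩ := exists_lt_of_csInf_lt (hm_ne x) this
      exact ⟨z, hz, hz'.le⟩
    · exact ⟨x, hself x, by have := hm_le x x (hself x); linarith⟩
  choose g hgS hg using hstep
  let u : ℕ → X := fun n => g^[n] x₀
  have hu0 : u 0 = x₀ := rfl
  have husucc : ∀ n, u (n + 1) = g (u n) := fun n => Function.iterate_succ_apply' g n x₀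
  have hmem : ∀ n k, u (n + k) ∈ S (u n) := by
    intro n k
    induction k with
    | zero => exact hself _
    | succ k ih =>
      have : u (n + (k + 1)) = g (u (n + k)) := husucc (n + k)
      rw [this]
      exact htrans _ _ _ ih (hgS _)
  have hanti : Antitone (fun n => f (u n)) := by
    apply antitone_nat_of_succ_le
    intro n
    rw [husucc]
    exact (hgS _).1
  -- f (u n) - m (u n) → 0
  have hgap : ∀ n, f (u n) - m (u n) ≤ (f x₀ - m x₀) / 2 ^ n := by
    intro n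
    induction n with
    | zero => simp [hu0]
    | succ n ih =>
      have h1 : m (u n) ≤ m (u (n + 1)) := by
        apply csInf_le_csInf (hm_bdd _) (hm_ne _)
        apply image_mono
        intro z hz
        exact htrans _ _ _ (hmem n 1) hz
      have h2 : f (u (n + 1)) ≤ (f (u n) + m (u n)) / 2 := by rw [husucc]; exact hg _
      rw [pow_succ]
      calc f (u (n + 1)) - m (u (n + 1)) ≤ (f (u n) + m (u n)) / 2 - m (u n) := by linarith
        _ = (f (u n) - m (u n)) / 2 := by ring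
        _ ≤ ((f x₀ - m x₀) / 2 ^ n) / 2 := by linarith
        _ = _ := by rw [div_div]
  have hgap' : Tendsto (fun n => f (u n) - m (u n)) atTop (𝓝 0) := by
    refine squeeze_zero (fun n => sub_nonneg.2 (hm_le _ _ (hself _))) hgap ?_
    have : Tendsto (fun n : ℕ => (f x₀ - m x₀) * (1 / 2 : ℝ) ^ n) atTop (𝓝 ((f x₀ - m x₀) * 0)) :=
      (tendsto_pow_atTop_nhds_zero_of_lt_one (by norm_num) (by norm_num)).const_mul _
    simpa [div_eq_mul_inv] using this
  -- the distances within S (u n) are small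
  have hdiam : ∀ n z, z ∈ S (u n) → edist z (u n) ≤ ENNReal.ofReal ((f (u n) - m (u n)) / ε) := by
    intro n z hz
    refine hz.2.trans (ENNReal.ofReal_le_ofReal ?_)
    have := hm_le _ _ hz
    gcongr
  have hlim0 : Tendsto (fun n => ENNReal.ofReal ((f (u n) - m (u n)) / ε)) atTop (𝓝 0) := by
    have := ENNReal.tendsto_ofReal (hgap'.div_const ε)
    simpa using this
  have hcauchy : CauchySeq u := by
    rw [EMetric.cauchySeq_iff_le_tendsto_0]
    refine ⟨fun n => 2 * ENNReal.ofReal ((f (u n) - m (u n)) / ε), ?_, ?_⟩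
    · intro n k N hn hk
      obtain ⟨a, rfl⟩ := Nat.exists_eq_add_of_le hn
      obtain ⟨b, rfl⟩ := Nat.exists_eq_add_of_le hk
      calc edist (u (N + a)) (u (N + b)) ≤ edist (u (N + a)) (u N) + edist (u (N + b)) (u N) :=
            edist_triangle_right _ _ _
        _ ≤ 2 * ENNReal.ofReal ((f (u N) - m (u N)) / ε) := by
            rw [two_mul]
            exact add_le_add (hdiam _ _ (hmem _ _)) (hdiam _ _ (hmem _ _))
    · have := ENNReal.Tendsto.const_mul hlim0 (a := 2) (Or.inr (by simp))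
      simpa using this
  obtain ⟨y, hy⟩ := cauchySeq_tendsto_of_complete hcauchy
  have hyS : ∀ n, y ∈ S (u n) := by
    intro n
    refine (hclosed _).mem_of_tendsto hy ?_
    filter_upwards [eventually_ge_atTop n] with k hk
    obtain ⟨a, rfl⟩ := Nat.exists_eq_add_of_le hk
    exact hmem _ _
  refine ⟨y, (hyS 0).1, (hyS 0).2, ?_⟩
  intro z hz1 hz2
  have hzS : ∀ n, z ∈ S (u n) := fun n => htrans _ _ _ (hyS n) ⟨hz1, hz2⟩
  have h1 : ∀ n, f (u n) - f z ≤ f (u n) - m (u n) := fun n => by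
    have := hm_le _ _ (hzS n); linarith
  have h2 : Tendsto (fun n => f (u n) - f z) atTop (𝓝 (f y - f z)) :=
    ((hf.tendsto y).comp hy).sub_const _
  have h3 : f y - f z ≤ 0 := le_of_tendsto_of_tendsto' h2 hgap' h1
  linarith


variable {F : Type*} [NormedAddCommGroup F] [NormedSpace ℝ F]
  {P : Type*} [TopologicalSpace P] [ChartedSpace F P]

/-- The curve through `y` in direction `v` obtained from the chart at `y`. -/
noncomputable def chartCurve (y : P) (v : F) (τ : ℝ) : P :=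
  (extChartAt 𝓘(ℝ, F) y).symm (extChartAt 𝓘(ℝ, F) y y + τ • v)

lemma chartCurve_zero (y : P) (v : F) : chartCurve y v 0 = y := by
  simp [chartCurve]

lemma exists_chartCurve_mem (y : P) (v : F) :
    ∃ r : ℝ, 0 < r ∧ ∀ τ ∈ Ioo (-r) r, extChartAt 𝓘(ℝ, F) y y + τ • v ∈ (extChartAt 𝓘(ℝ, F) y).target := by
  have h1 : (extChartAt 𝓘(ℝ, F) y).target ∈ 𝓝 (extChartAt 𝓘(ℝ, F) y y) :=
    extChartAt_target_mem_nhds y
  have h2 : Tendsto (fun τ : ℝ => extChartAt 𝓘(ℝ, F) y y + τ • v) (𝓝 0)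
      (𝓝 (extChartAt 𝓘(ℝ, F) y y)) := by
    have : Continuous (fun τ : ℝ => extChartAt 𝓘(ℝ, F) y y + τ • v) := by fun_prop
    have h := this.tendsto 0
    simpa using h
  obtain ⟨r, hr, h⟩ := Metric.eventually_nhds_iff.1 (h2 h1)
  refine ⟨r, hr, fun τ hτ => ?_⟩
  have := @h τ (by rw [Real.dist_eq, sub_zero, abs_lt]; exact hτ)
  exact this

lemma contMDiffOn_chartCurve [IsManifold 𝓘(ℝ, F) 1 P] (y : P) (v : F) {r : ℝ}
    (hr : ∀ τ ∈ Ioo (-r) r, extChartAt 𝓘(ℝ, F) y y + τ • v ∈ (extChartAt 𝓘(ℝ, F) y).target) :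
    ContMDiffOn 𝓘(ℝ, ℝ) 𝓘(ℝ, F) 1 (chartCurve y v) (Ioo (-r) r) := by
  have h1 : ContMDiffOn 𝓘(ℝ, F) 𝓘(ℝ, F) 1 (extChartAt 𝓘(ℝ, F) y).symm
      (extChartAt 𝓘(ℝ, F) y).target := contMDiffOn_extChartAt_symm y
  have h2 : ContMDiffOn 𝓘(ℝ, ℝ) 𝓘(ℝ, F) 1 (fun τ : ℝ => extChartAt 𝓘(ℝ, F) y y + τ • v)
      (Ioo (-r) r) := by
    apply ContMDiff.contMDiffOn
    rw [contMDiff_iff_contDiff]
    fun_prop
  exact h1.comp h2 hr

lemma hasMFDerivAt_chartCurve [IsManifold 𝓘(ℝ, F) 1 P] (y : P) (v : F) :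
    HasMFDerivAt 𝓘(ℝ, ℝ) 𝓘(ℝ, F) (chartCurve y v) 0
      ((ContinuousLinearMap.smulRight (1 : ℝ →L[ℝ] ℝ) v : ℝ →L[ℝ] F)) := by
  obtain ⟨r, hr, h⟩ := exists_chartCurve_mem y v
  have hmem : Ioo (-r) r ∈ 𝓝 (0 : ℝ) := Ioo_mem_nhds (by linarith) hr
  refine ⟨((contMDiffOn_chartCurve y v h).continuousOn.continuousAt hmem), ?_⟩
  have h0 : chartCurve y v 0 = y := chartCurve_zero y v
  have heq : (writtenInExtChartAt 𝓘(ℝ, ℝ) 𝓘(ℝ, F) 0 (chartCurve y v)) =ᶠ[𝓝 0]
      fun τ : ℝ => extChartAt 𝓘(ℝ, F) y y + τ • v := by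
    filter_upwards [hmem] with τ hτ
    simp only [writtenInExtChartAt, h0, Function.comp_apply, extChartAt_model_space_eq_id,
      PartialEquiv.refl_symm, PartialEquiv.refl_coe, id]
    exact (extChartAt 𝓘(ℝ, F) y).right_inv (h τ hτ)
  have hd : HasFDerivAt (fun τ : ℝ => extChartAt 𝓘(ℝ, F) y y + τ • v)
      ((ContinuousLinearMap.smulRight (1 : ℝ →L[ℝ] ℝ) v : ℝ →L[ℝ] F)) 0 := by
    have : HasDerivAt (fun τ : ℝ => extChartAt 𝓘(ℝ, F) y y + τ • v) v 0 := by
      have := ((hasDerivAt_id (0 : ℝ)).smul_const v).const_add (extChartAt 𝓘(ℝ, F) y y)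
      simpa using this
    exact this.hasFDerivAt
  have : HasFDerivAt (writtenInExtChartAt 𝓘(ℝ, ℝ) 𝓘(ℝ, F) 0 (chartCurve y v))
      ((ContinuousLinearMap.smulRight (1 : ℝ →L[ℝ] ℝ) v : ℝ →L[ℝ] F)) 0 :=
    hd.congr_of_eventuallyEq heq
  exact this.hasFDerivWithinAt

lemma hasDerivAt_comp_chartCurve [IsManifold 𝓘(ℝ, F) 1 P] {f : P → ℝ} {y : P}
    (hf : MDifferentiableAt 𝓘(ℝ, F) 𝓘(ℝ, ℝ) f y) (v : F) :
    HasDerivAt (fun τ => f (chartCurve y v τ)) (differential (F := F) f y v) 0 := by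
  have h1 := hasMFDerivAt_chartCurve y v
  have h2 : HasMFDerivAt 𝓘(ℝ, F) 𝓘(ℝ, ℝ) f (chartCurve y v 0)
      (mfderiv 𝓘(ℝ, F) 𝓘(ℝ, ℝ) f (chartCurve y v 0)) := by
    rw [chartCurve_zero]
    exact hf.hasMFDerivAt
  have h3 := h2.comp (0 : ℝ) h1
  let L : F →L[ℝ] ℝ := mfderiv 𝓘(ℝ, F) 𝓘(ℝ, ℝ) f (chartCurve y v 0)
  have h4 : HasFDerivAt (f ∘ chartCurve y v)
    (L.comp (ContinuousLinearMap.smulRight (1 : ℝ →L[ℝ] ℝ) v)) 0 := h3.hasFDerivAt
  have h5 := h4.hasDerivAt
  have key : ∀ q : P, q = y →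
      ((mfderiv 𝓘(ℝ, F) 𝓘(ℝ, ℝ) f q) v : ℝ) = differential (F := F) f y v := by
    rintro _ rfl; rfl
  have h6 : L v = differential (F := F) f y v := key _ (chartCurve_zero y v)
  have h7 : (L.comp (ContinuousLinearMap.smulRight (1 : ℝ →L[ℝ] ℝ) v)) 1 = L v := by
    simp
  rw [h7, h6] at h5
  exact h5

lemma mfderiv_chartCurve_zero [IsManifold 𝓘(ℝ, F) 1 P] (y : P) (v : F) :
    ((mfderiv 𝓘(ℝ, ℝ) 𝓘(ℝ, F) (chartCurve y v) 0 (1 : ℝ)) : F) = v := by
  have h : (mfderiv 𝓘(ℝ, ℝ) 𝓘(ℝ, F) (chartCurve y v) 0 : ℝ →L[ℝ] F) =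
    (ContinuousLinearMap.smulRight (1 : ℝ →L[ℝ] ℝ) v) := (hasMFDerivAt_chartCurve y v).mfderiv
  have h2 := DFunLike.congr_fun h (1 : ℝ)
  have h3 : (ContinuousLinearMap.smulRight (1 : ℝ →L[ℝ] ℝ) v) 1 = v := by simp
  exact h2.trans h3

lemma continuousAt_nrm_chartCurve [IsManifold 𝓘(ℝ, F) 1 P] (ν : TangentNorm F P)
    (hν : ν.IsContinuous) (y : P) (v : F) :
    Tendsto (fun τ : ℝ => ν.nrm (chartCurve y v τ)
      (mfderiv 𝓘(ℝ, ℝ) 𝓘(ℝ, F) (chartCurve y v) τ (1 : ℝ))) (𝓝 0) (𝓝 (ν.nrm y v)) := by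
  obtain ⟨r, hr, h⟩ := exists_chartCurve_mem y v
  have hmem : Ioo (-r) r ∈ 𝓝 (0 : ℝ) := Ioo_mem_nhds (by linarith) hr
  have hopen : IsOpen (Ioo (-r) r) := isOpen_Ioo
  have h1 := (contMDiffOn_chartCurve y v h).continuousOn_tangentMapWithin le_rfl hopen.uniqueMDiffOn
  -- the constant vector field `1` on the line
  have h2 : Continuous (fun τ : ℝ => (⟨τ, (1 : ℝ)⟩ : TangentBundle 𝓘(ℝ, ℝ) ℝ)) := by
    have h := (tangentBundleModelSpaceHomeomorph 𝓘(ℝ, ℝ)).symm.continuous
    exact h.comp (Continuous.prodMk continuous_id continuous_const)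
  have h3 : ContinuousAt (fun τ : ℝ => tangentMapWithin 𝓘(ℝ, ℝ) 𝓘(ℝ, F) (chartCurve y v) (Ioo (-r) r)
      (⟨τ, (1 : ℝ)⟩ : TangentBundle 𝓘(ℝ, ℝ) ℝ)) 0 := by
    have := h1.comp h2.continuousOn (s := Ioo (-r) r) (fun τ hτ => hτ)
    exact this.continuousAt hmem
  have h4 := (hν.continuousAt (x := tangentMapWithin 𝓘(ℝ, ℝ) 𝓘(ℝ, F) (chartCurve y v) (Ioo (-r) r)
      (⟨0, (1 : ℝ)⟩ : TangentBundle 𝓘(ℝ, ℝ) ℝ))).tendsto.comp h3.tendsto
  have hval : ν.nrm (tangentMapWithin 𝓘(ℝ, ℝ) 𝓘(ℝ, F) (chartCurve y v) (Ioo (-r) r)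
      (⟨0, (1 : ℝ)⟩ : TangentBundle 𝓘(ℝ, ℝ) ℝ)).proj
      (tangentMapWithin 𝓘(ℝ, ℝ) 𝓘(ℝ, F) (chartCurve y v) (Ioo (-r) r)
      (⟨0, (1 : ℝ)⟩ : TangentBundle 𝓘(ℝ, ℝ) ℝ)).snd = ν.nrm y v := by
    have hz : mfderivWithin 𝓘(ℝ, ℝ) 𝓘(ℝ, F) (chartCurve y v) (Ioo (-r) r) 0 =
      mfderiv 𝓘(ℝ, ℝ) 𝓘(ℝ, F) (chartCurve y v) 0 := mfderivWithin_of_mem_nhds hmem
    have key : ∀ q : P, q = y → ν.nrm q (v : F) = ν.nrm y v := by
      rintro _ rfl; rfl
    rw [← key _ (chartCurve_zero y v)]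
    change ν.nrm (chartCurve y v 0)
      (mfderivWithin 𝓘(ℝ, ℝ) 𝓘(ℝ, F) (chartCurve y v) (Ioo (-r) r) 0 (1 : ℝ)) = _
    rw [hz]
    congr 1
    exact mfderiv_chartCurve_zero y v
  rw [hval] at h4
  refine h4.congr' ?_
  filter_upwards [hmem] with τ hτ
  have hz : mfderivWithin 𝓘(ℝ, ℝ) 𝓘(ℝ, F) (chartCurve y v) (Ioo (-r) r) τ =
      mfderiv 𝓘(ℝ, ℝ) 𝓘(ℝ, F) (chartCurve y v) τ := mfderivWithin_of_mem_nhds (hopen.mem_nhds hτ)
  change ν.nrm (chartCurve y v τ)
      (mfderivWithin 𝓘(ℝ, ℝ) 𝓘(ℝ, F) (chartCurve y v) (Ioo (-r) r) τ (1 : ℝ)) = _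
  rw [hz]

/-- The length of the short piece of the curve `chartCurve y v` between the times `0` and `τ`. -/
lemma finslerDist_chartCurve_le [IsManifold 𝓘(ℝ, F) 1 P] (ν : TangentNorm F P) (y : P) (v : F)
    {r : ℝ} (hr : ∀ τ ∈ Ioo (-r) r,
      extChartAt 𝓘(ℝ, F) y y + τ • v ∈ (extChartAt 𝓘(ℝ, F) y).target) {N : ℝ}
    (hN : ∀ τ ∈ Ioo (-r) r, ν.nrm (chartCurve y v τ)
      (mfderiv 𝓘(ℝ, ℝ) 𝓘(ℝ, F) (chartCurve y v) τ (1 : ℝ)) ≤ N)
    {τ : ℝ} (hτ0 : 0 < τ) (hτr : τ < r) :
    ν.finslerDist y (chartCurve y v τ) ≤ ENNReal.ofReal (N * τ) := by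
  let c : ℝ → P := fun σ => chartCurve y v (τ * σ)
  have hmaps : MapsTo (fun σ : ℝ => τ * σ) (Icc 0 1) (Ioo (-r) r) := by
    intro σ hσ
    constructor
    · have := mul_nonneg hτ0.le hσ.1; simp only; linarith
    · have := mul_le_mul_of_nonneg_left hσ.2 hτ0.le; simp only; linarith
  have hlin : ContMDiffOn 𝓘(ℝ, ℝ) 𝓘(ℝ, ℝ) 1 (fun σ : ℝ => τ * σ) (Icc 0 1) := by
    apply ContMDiff.contMDiffOn
    rw [contMDiff_iff_contDiff]
    fun_prop
  have hc : ContMDiffOn 𝓘(ℝ, ℝ) 𝓘(ℝ, F) 1 c (Icc 0 1) :=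
    (contMDiffOn_chartCurve y v hr).comp hlin hmaps
  have h0 : c 0 = y := by simp [c, chartCurve_zero]
  have h1 : c 1 = chartCurve y v τ := by simp [c]
  have hle : ν.finslerDist y (chartCurve y v τ) ≤ ν.length c := by
    unfold TangentNorm.finslerDist
    exact iInf_le_of_le c (iInf_le_of_le hc (iInf_le_of_le h0 (iInf_le_of_le h1 le_rfl)))
  refine hle.trans ?_
  unfold TangentNorm.length
  have hpt : ∀ σ ∈ Icc (0 : ℝ) 1,
      ENNReal.ofReal (ν.nrm (c σ) (mfderivWithin 𝓘(ℝ, ℝ) 𝓘(ℝ, F) c (Icc 0 1) σ (1 : ℝ)))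
        ≤ ENNReal.ofReal (N * τ) := by
    intro σ hσ
    apply ENNReal.ofReal_le_ofReal
    have hmd : MDifferentiableAt 𝓘(ℝ, ℝ) 𝓘(ℝ, F) (chartCurve y v) (τ * σ) :=
      ((contMDiffOn_chartCurve y v hr).mdifferentiableOn one_ne_zero _
        (hmaps hσ)).mdifferentiableAt (isOpen_Ioo.mem_nhds (hmaps hσ))
    have h2 : HasMFDerivWithinAt 𝓘(ℝ, ℝ) 𝓘(ℝ, ℝ) (fun σ : ℝ => τ * σ) (Icc 0 1) σ
        ((ContinuousLinearMap.smulRight (1 : ℝ →L[ℝ] ℝ) τ : ℝ →L[ℝ] ℝ)) := by
      have : HasDerivAt (fun σ : ℝ => τ * σ) τ σ := by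
        simpa using (hasDerivAt_id σ).const_mul τ
      have h9 : HasFDerivWithinAt (fun σ : ℝ => τ * σ)
          (ContinuousLinearMap.smulRight (1 : ℝ →L[ℝ] ℝ) τ : ℝ →L[ℝ] ℝ) (Icc 0 1) σ :=
        this.hasFDerivAt.hasFDerivWithinAt
      exact h9.hasMFDerivWithinAt
    have h3 := hmd.hasMFDerivAt.comp_hasMFDerivWithinAt σ h2
    have h4 := h3.mfderivWithin
      ((uniqueDiffOn_Icc (zero_lt_one (α := ℝ))).uniqueMDiffOn σ hσ)
    have h5 : mfderivWithin 𝓘(ℝ, ℝ) 𝓘(ℝ, F) c (Icc 0 1) σ (1 : ℝ) =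
        τ • (mfderiv 𝓘(ℝ, ℝ) 𝓘(ℝ, F) (chartCurve y v) (τ * σ) (1 : ℝ)) := by
      have h6 := DFunLike.congr_fun h4 (1 : ℝ)
      refine Eq.trans h6 ?_
      let L : ℝ →L[ℝ] F := mfderiv 𝓘(ℝ, ℝ) 𝓘(ℝ, F) (chartCurve y v) (τ * σ)
      change (L.comp (ContinuousLinearMap.smulRight (1 : ℝ →L[ℝ] ℝ) τ)) 1 = τ • L 1
      simp [← map_smul]
    have h6 : ν.nrm (c σ) (mfderivWithin 𝓘(ℝ, ℝ) 𝓘(ℝ, F) c (Icc 0 1) σ (1 : ℝ)) =
        |τ| * ν.nrm (c σ) (mfderiv 𝓘(ℝ, ℝ) 𝓘(ℝ, F) (chartCurve y v) (τ * σ) (1 : ℝ)) := by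
      rw [h5]
      exact ν.smul _ _ _
    rw [h6, abs_of_pos hτ0, mul_comm]
    exact mul_le_mul_of_nonneg_right (hN _ (hmaps hσ)) hτ0.le
  calc ∫⁻ t in Icc (0 : ℝ) 1,
        ENNReal.ofReal (ν.nrm (c t) (mfderivWithin 𝓘(ℝ, ℝ) 𝓘(ℝ, F) c (Icc 0 1) t (1 : ℝ)))
      ≤ ∫⁻ t in Icc (0 : ℝ) 1, ENNReal.ofReal (N * τ) := setLIntegral_mono' measurableSet_Icc hpt
    _ = ENNReal.ofReal (N * τ) := by simp

/-- The key estimate: an almost minimality property in the sense of Ekeland bounds the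
differential. -/
lemma neg_differential_le [IsManifold 𝓘(ℝ, F) 1 P] (ν : TangentNorm F P)
    (hν : ν.IsContinuous) {f : P → ℝ} {y : P}
    (hf : MDifferentiableAt 𝓘(ℝ, F) 𝓘(ℝ, ℝ) f y) {ε : ℝ} (hε : 0 < ε)
    (H : ∀ z, f z ≤ f y → ν.finslerDist y z ≤ ENNReal.ofReal ((f y - f z) / ε) → f z = f y)
    (v : F) : -differential (F := F) f y v ≤ ε * ν.nrm y v := by
  by_contra hlt
  push Not at hlt
  set D := differential (F := F) f y v with hD
  set N := ν.nrm y v with hN
  have hN0 : 0 ≤ N := ν.nonneg y v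
  obtain ⟨N', hN', hN'2⟩ : ∃ N', N < N' ∧ ε * N' < -D := by
    have : N < -D / ε := by rw [lt_div_iff₀ hε]; linarith
    obtain ⟨N', h1, h2⟩ := exists_between this
    refine ⟨N', h1, ?_⟩
    rw [lt_div_iff₀ hε] at h2
    linarith
  obtain ⟨D', hD'1, hD'2⟩ := exists_between hN'2
  obtain ⟨r, hr, h⟩ := exists_chartCurve_mem y v
  -- the norm of the velocity stays below N'
  have hcont := continuousAt_nrm_chartCurve ν hν y v
  have hev1 : ∀ᶠ τ in 𝓝 (0 : ℝ), ν.nrm (chartCurve y v τ)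
      (mfderiv 𝓘(ℝ, ℝ) 𝓘(ℝ, F) (chartCurve y v) τ (1 : ℝ)) < N' := hcont.eventually_lt_const hN'
  obtain ⟨r₁, hr₁, h₁⟩ := Metric.eventually_nhds_iff.1 hev1
  -- the function decreases
  have hder := hasDerivAt_comp_chartCurve hf v
  have hslope := hder.tendsto_slope_zero_right
  simp only [zero_add, chartCurve_zero] at hslope
  have hev2 : ∀ᶠ τ in 𝓝[>] (0 : ℝ), τ⁻¹ • (f (chartCurve y v τ) - f y) < -D' :=
    hslope.eventually_lt_const (by linarith)
  have hev3 : ∀ᶠ τ in 𝓝[>] (0 : ℝ), τ < min r r₁ :=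
    nhdsWithin_le_nhds (Iio_mem_nhds (lt_min hr hr₁))
  obtain ⟨τ, ⟨h2, h3⟩, hτ0⟩ := ((hev2.and hev3).and self_mem_nhdsWithin).exists
  have hτ0 : 0 < τ := hτ0
  have hτr : τ < min r r₁ := h3
  have hdec : f (chartCurve y v τ) < f y - D' * τ := by
    rw [smul_eq_mul, inv_mul_lt_iff₀ hτ0] at h2
    linarith
  have hD'0 : 0 < D' := by
    have : 0 < ε * N' := mul_pos hε (lt_of_le_of_lt hN0 hN')
    linarith
  have hle : f (chartCurve y v τ) ≤ f y := by
    have := mul_pos hD'0 hτ0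
    linarith
  have hdist : ν.finslerDist y (chartCurve y v τ) ≤ ENNReal.ofReal (N' * τ) := by
    apply finslerDist_chartCurve_le ν y v (r := min r r₁) (N := N') _ _ hτ0 hτr
    · intro ρ hρ
      exact h ρ ⟨by have := min_le_left r r₁; linarith [hρ.1], by
        have := min_le_left r r₁; linarith [hρ.2]⟩
    · intro ρ hρ
      refine (h₁ ?_).le
      rw [Real.dist_eq, sub_zero, abs_lt]
      exact ⟨by have := min_le_right r r₁; linarith [hρ.1], by
        have := min_le_right r r₁; linarith [hρ.2]⟩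
  have hfin : f (chartCurve y v τ) = f y := by
    apply H _ hle (hdist.trans (ENNReal.ofReal_le_ofReal _))
    rw [le_div_iff₀ hε]
    have : ε * N' * τ ≤ D' * τ := mul_le_mul_of_nonneg_right hD'1.le hτ0.le
    nlinarith
  have := mul_pos hD'0 hτ0
  linarith


/-- In a complete Finsler manifold, the Palais–Smale condition forces every minimising sequence of
a `C¹` function `f ≥ m` with `f → m` to converge, along a subsequence, to a minimiser. -/
theorem exists_limit_of_palaisSmale {F : Type*} [NormedAddCommGroup F] [NormedSpace ℝ F]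
    {P : Type*} [EMetricSpace P] [CompleteSpace P] [ChartedSpace F P] [IsManifold 𝓘(ℝ, F) 1 P]
    (ν : TangentNorm F P) (hν : ν.IsContinuous)
    (hd : ∀ p q : P, edist p q ≤ ν.finslerDist p q)
    {f : P → ℝ} (hf : ContMDiff 𝓘(ℝ, F) 𝓘(ℝ, ℝ) 1 f) {m : ℝ} (hm : ∀ p, m ≤ f p)
    (hPS : PalaisSmale ν f) (u : ℕ → P) (hu : Tendsto (fun n => f (u n)) atTop (𝓝 m)) :
    ∃ (p : P) (j : ℕ → ℕ), StrictMono j ∧ Tendsto (fun n => u (j n)) atTop (𝓝 p) ∧ f p = m := by
  set ε : ℕ → ℝ := fun n => √(f (u n) - m) + 1 / ((n : ℝ) + 1) with hεdef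
  have hε0 : ∀ n, 0 < ε n := fun n => by
    have : (0 : ℝ) < 1 / ((n : ℝ) + 1) := by positivity
    have := Real.sqrt_nonneg (f (u n) - m)
    simp only [hεdef]; linarith
  have hum : Tendsto (fun n => f (u n) - m) atTop (𝓝 0) := by
    have := hu.sub_const m
    rwa [sub_self] at this
  have hsqrt : Tendsto (fun n => √(f (u n) - m)) atTop (𝓝 0) := by
    have := (Real.continuous_sqrt.tendsto 0).comp hum
    rw [Real.sqrt_zero] at this
    exact this
  have hεlim : Tendsto ε atTop (𝓝 0) := by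
    have h2 := hsqrt.add (tendsto_one_div_add_atTop_nhds_zero_nat (𝕜 := ℝ))
    rw [add_zero] at h2
    exact h2
  have hfc : Continuous f := hf.continuous
  choose y hy1 hy2 hy3 using fun n => ekeland hfc hm (hε0 n) (u n)
  -- the differential at the Ekeland points is small
  have hslope : ∀ n (v : TangentSpace 𝓘(ℝ, F) (y n)),
      |differential (F := F) f (y n) v| ≤ ε n * ν.nrm (y n) v := by
    intro n v
    have hmd : MDifferentiableAt 𝓘(ℝ, F) 𝓘(ℝ, ℝ) f (y n) := hf.mdifferentiableAt one_ne_zero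
    have H : ∀ z, f z ≤ f (y n) → ν.finslerDist (y n) z ≤ ENNReal.ofReal ((f (y n) - f z) / ε n) →
        f z = f (y n) := by
      intro z hz1 hz2
      apply hy3 n z hz1
      rw [edist_comm]
      exact (hd _ _).trans hz2
    have h1 := neg_differential_le ν hν hmd (hε0 n) H v
    have h2 := neg_differential_le ν hν hmd (hε0 n) H (-v : F)
    have h3 : differential (F := F) f (y n) (-v : F) = -differential (F := F) f (y n) v := by
      unfold differential
      exact map_neg _ _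
    have h4 : ν.nrm (y n) (-v : F) = ν.nrm (y n) v := by
      have := ν.smul (y n) (-1) v
      rw [abs_neg, abs_one, one_mul] at this
      rw [← this]
      congr 1
      exact (neg_one_smul ℝ (v : F)).symm
    rw [h3, h4] at h2
    rw [abs_le]
    constructor
    · linarith
    · linarith
  have hbound : ∃ C : ℝ, ∀ n, |f (y n)| ≤ C := by
    obtain ⟨C, hC⟩ := hu.bddAbove_range
    refine ⟨|m| + |C|, fun n => ?_⟩
    have h1 : f (y n) ≤ C := (hy1 n).trans (hC ⟨n, rfl⟩)
    have h2 := hm (y n)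
    rw [abs_le]
    constructor
    · have := neg_abs_le m; have := abs_nonneg C; linarith
    · have := le_abs_self C; have := abs_nonneg m; linarith
  obtain ⟨p, j, hj, hlim⟩ := hPS y hbound ⟨ε, hεlim, hslope⟩
  have hyf : Tendsto (fun n => f (y n)) atTop (𝓝 m) :=
    tendsto_of_tendsto_of_tendsto_of_le_of_le tendsto_const_nhds hu (fun n => hm _) hy1
  refine ⟨p, j, hj, ?_, ?_⟩
  · -- `u (j n)` is close to `y (j n)`
    rw [tendsto_iff_edist_tendsto_0] at hlim ⊢
    have hsmall : Tendsto (fun n => edist (y n) (u n)) atTop (𝓝 0) := by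
      have hle : ∀ n, edist (y n) (u n) ≤ ENNReal.ofReal (√(f (u n) - m)) := by
        intro n
        refine (hy2 n).trans (ENNReal.ofReal_le_ofReal ?_)
        rw [div_le_iff₀ (hε0 n)]
        have h0 : 0 ≤ f (u n) - m := sub_nonneg.2 (hm _)
        have h1 : f (u n) - f (y n) ≤ f (u n) - m := by linarith [hm (y n)]
        have h2 : f (u n) - m = √(f (u n) - m) * √(f (u n) - m) := (Real.mul_self_sqrt h0).symm
        have h3 : √(f (u n) - m) * √(f (u n) - m) ≤ √(f (u n) - m) * ε n := by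
          apply mul_le_mul_of_nonneg_left _ (Real.sqrt_nonneg _)
          have : (0 : ℝ) < 1 / ((n : ℝ) + 1) := by positivity
          simp only [hεdef]; linarith
        linarith
      have h0 : Tendsto (fun n => ENNReal.ofReal (√(f (u n) - m))) atTop (𝓝 0) := by
        have := ENNReal.tendsto_ofReal hsqrt
        rw [ENNReal.ofReal_zero] at this
        exact this
      exact tendsto_of_tendsto_of_tendsto_of_le_of_le tendsto_const_nhds h0 (fun _ => bot_le) hle
    have h1 := (hsmall.comp hj.tendsto_atTop).add hlim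
    rw [add_zero] at h1
    refine tendsto_of_tendsto_of_tendsto_of_le_of_le tendsto_const_nhds h1 (fun _ => bot_le) ?_
    intro n
    calc edist (u (j n)) p ≤ edist (u (j n)) (y (j n)) + edist (y (j n)) p := edist_triangle _ _ _
      _ = edist (y (j n)) (u (j n)) + edist (y (j n)) p := by rw [edist_comm (u (j n))]
  · have h1 : Tendsto (fun n => f (y (j n))) atTop (𝓝 (f p)) := (hfc.tendsto p).comp hlim
    exact tendsto_nhds_unique h1 (hyf.comp hj.tendsto_atTop)

end Pool.Agent.Lib.MP_45c189_gt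
end

section

section

/-!
# Shear maps of the flat torus and uniqueness of velocities
-/

open Filter Topology Set MeasureTheory UnitAddTorus
open scoped Manifold ContDiff

noncomputable section

namespace Pool.Agent.Lib.MP_45c189_gt

/-! ### Decay of Fourier coefficients -/

lemma volume_unitAddCircle : (volume : Measure UnitAddCircle) = AddCircle.haarAddCircle := by
  rw [AddCircle.volume_eq_smul_haarAddCircle]
  simp

instance : IsProbabilityMeasure (volume : Measure UnitAddCircle) := ⟨UnitAddCircle.measure_univ⟩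

lemma fourierCoeffOn_deriv {G : ℝ → ℂ} (hG : ContDiff ℝ ∞ G) (hper : Function.Periodic G 1) {n : ℤ}
    (hn : n ≠ 0) :
    ‖fourierCoeffOn (zero_lt_one (α := ℝ)) G n‖ =
      ‖fourierCoeffOn (zero_lt_one (α := ℝ)) (deriv G) n‖ / (2 * Real.pi * |(n : ℝ)|) := by
  have hd : ∀ x ∈ uIcc (0 : ℝ) 1, HasDerivAt G (deriv G x) x := fun x _ =>
    (hG.differentiable (by simp)).differentiableAt.hasDerivAt
  have hint : IntervalIntegrable (deriv G) volume 0 1 :=
    (hG.continuous_deriv (by simp)).intervalIntegrable _ _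
  rw [fourierCoeffOn_of_hasDerivAt (zero_lt_one (α := ℝ)) hn hd hint]
  have h01 : G 1 - G 0 = 0 := by
    have := hper 0
    rw [zero_add] at this
    rw [this, sub_self]
  rw [h01]
  simp only [mul_zero, zero_sub, Complex.ofReal_one, Complex.ofReal_zero, sub_zero, one_mul,
    norm_mul, norm_neg, norm_div, norm_one, Complex.norm_I, mul_one, Complex.norm_real,
    Complex.norm_intCast, Complex.norm_ofNat]
  rw [Real.norm_eq_abs, abs_of_pos Real.pi_pos]
  field_simp

lemma periodic_deriv {G : ℝ → ℂ} (hper : Function.Periodic G 1) :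
    Function.Periodic (deriv G) 1 := by
  intro x
  have h : (fun y => G (y + 1)) = G := funext hper
  calc deriv G (x + 1) = deriv (fun y => G (y + 1)) x := (deriv_comp_add_const G 1 x).symm
    _ = deriv G x := by rw [h]

lemma fourierCoeffOn_decay (N : ℕ) : ∀ {G : ℝ → ℂ}, ContDiff ℝ ∞ G → Function.Periodic G 1 →
    ∃ C : ℝ, 0 ≤ C ∧ ∀ n : ℤ, n ≠ 0 →
      ‖fourierCoeffOn (zero_lt_one (α := ℝ)) G n‖ ≤ C / |(n : ℝ)| ^ N := by
  induction N with
  | zero =>
    intro G hG hper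
    obtain ⟨C, hC⟩ := (isCompact_Icc (a := (0 : ℝ)) (b := 1)).exists_bound_of_continuousOn
      hG.continuous.continuousOn
    refine ⟨C, (norm_nonneg _).trans (hC 0 (by simp)), fun n _ => ?_⟩
    rw [fourierCoeffOn_eq_integral]
    simp only [sub_zero, ne_eq, one_ne_zero, not_false_eq_true, div_self, one_smul, pow_zero,
      div_one]
    have := intervalIntegral.norm_integral_le_of_norm_le_const (a := 0) (b := 1) (C := C)
      (f := fun x : ℝ => (fourier (-n) (x : AddCircle (1 - 0 : ℝ)) : ℂ) • G x) (by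
        intro x hx
        rw [uIoc_of_le zero_le_one] at hx
        rw [norm_smul]
        have h1 : ‖(fourier (-n) (x : AddCircle (1 - 0 : ℝ)) : ℂ)‖ = 1 := by
          rw [fourier_apply]; exact Circle.norm_coe _
        rw [h1, one_mul]
        exact hC x ⟨hx.1.le, hx.2⟩)
    simpa using this
  | succ N ih =>
    intro G hG hper
    obtain ⟨C, hC0, hC⟩ := ih (G := deriv G) (by
      have : ContDiff ℝ (∞ + 1) G := by simpa using hG
      exact (contDiff_succ_iff_deriv.1 this).2.2) (periodic_deriv hper)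
    refine ⟨C / (2 * Real.pi), by positivity, fun n hn => ?_⟩
    rw [fourierCoeffOn_deriv hG hper hn]
    have hn' : 0 < |(n : ℝ)| := by positivity
    calc ‖fourierCoeffOn (zero_lt_one (α := ℝ)) (deriv G) n‖ / (2 * Real.pi * |(n : ℝ)|)
        ≤ (C / |(n : ℝ)| ^ N) / (2 * Real.pi * |(n : ℝ)|) := by
          gcongr
          exact hC n hn
      _ = C / (2 * Real.pi) / |(n : ℝ)| ^ (N + 1) := by
          rw [pow_succ]; field_simp

/-- The lift of a `1`-periodic function on the line to the circle `ℝ/ℤ`. -/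
def circleFun {α : Type*} (g : ℝ → α) (hg : Function.Periodic g 1) : UnitAddCircle → α := hg.lift

@[simp] lemma circleFun_coe {α : Type*} (g : ℝ → α) (hg : Function.Periodic g 1) (y : ℝ) :
    circleFun g hg (y : UnitAddCircle) = g y := Function.Periodic.lift_coe hg y

lemma continuous_circleFun {α : Type*} [TopologicalSpace α] {g : ℝ → α} (hg : Function.Periodic g 1)
    (hc : Continuous g) : Continuous (circleFun g hg) := by
  unfold circleFun Function.Periodic.lift
  exact Continuous.quotient_liftOn' hc _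

lemma fourierCoeff_circleFun {g : ℝ → ℂ} (hg : Function.Periodic g 1) (n : ℤ) :
    fourierCoeff (circleFun g hg) n = fourierCoeffOn (zero_lt_one (α := ℝ)) g n := by
  rw [fourierCoeff_eq_intervalIntegral _ n 0, fourierCoeffOn_eq_integral]
  simp

lemma mFourierCoeff_prod (g : UnitAddCircle → ℂ) (k : ℤ) (n : Fin 2 → ℤ) :
    mFourierCoeff (fun x : T2 => g (x 0) * (fourier k (x 1) : ℂ)) n =
      fourierCoeff g (n 0) * (if n 1 = k then 1 else 0) := by
  have h1 : fourierCoeff (fun x : UnitAddCircle => (fourier k x : ℂ)) (n 1) =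
      if n 1 = k then 1 else 0 := by
    have := congr_fun (fourierCoeff_fourier (T := 1) k) (n 1)
    rw [Pi.single_apply] at this
    exact this
  rw [← h1]
  let f : Fin 2 → UnitAddCircle → ℂ := ![fun y => (fourier (-(n 0)) y : ℂ) * g y,
    fun y => (fourier (-(n 1)) y : ℂ) * (fourier k y : ℂ)]
  have h2 := integral_fintype_prod_eq_prod (𝕜 := ℂ) (ι := Fin 2) (E := fun _ => UnitAddCircle)
    (μ := fun _ => AddCircle.haarAddCircle) f
  have h3 : mFourierCoeff (fun x : T2 => g (x 0) * (fourier k (x 1) : ℂ)) n =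
      ∫ x : Fin 2 → UnitAddCircle, ∏ i, f i (x i) ∂(Measure.pi fun _ => AddCircle.haarAddCircle) := by
    unfold mFourierCoeff
    apply integral_congr_ae
    filter_upwards with x
    simp only [mFourier, ContinuousMap.coe_mk, Fin.prod_univ_two, f, Matrix.cons_val_zero,
      Matrix.cons_val_one, smul_eq_mul, Pi.neg_apply]
    ring
  rw [h3, h2]
  simp [Fin.prod_univ_two, f, fourierCoeff]

lemma summable_aux (s : ℝ) {c : ℤ → ℂ} (hc : ∀ N : ℕ, ∃ C : ℝ, 0 ≤ C ∧ ∀ n : ℤ, n ≠ 0 →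
      ‖c n‖ ≤ C / |(n : ℝ)| ^ N) (k : ℤ) :
    Summable fun n : Fin 2 → ℤ => (1 + ∑ i, (n i : ℝ) ^ 2) ^ s *
      ‖c (n 0) * (if n 1 = k then 1 else 0)‖ ^ 2 := by
  let ι : ℤ → (Fin 2 → ℤ) := fun m => ![m, k]
  have hι : Function.Injective ι := fun a b h => by simpa [ι] using congr_fun h 0
  rw [← hι.summable_iff]
  · -- the one-dimensional sum
    obtain ⟨M, hM⟩ := exists_nat_ge s
    obtain ⟨C, hC0, hC⟩ := hc (M + 1)
    have hbound : ∀ m : ℤ, m ≠ 0 → ((fun n : Fin 2 → ℤ => (1 + ∑ i, (n i : ℝ) ^ 2) ^ s *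
      ‖c (n 0) * (if n 1 = k then 1 else 0)‖ ^ 2) ∘ ι) m ≤
        (2 + (k : ℝ) ^ 2) ^ M * C ^ 2 * (1 / (m : ℝ) ^ 2) := by
      intro m hm
      have hm1 : (1 : ℝ) ≤ (m : ℝ) ^ 2 := by
        have : (1 : ℤ) ≤ m ^ 2 := by
          have := Int.one_le_abs hm
          nlinarith [sq_abs m, abs_nonneg m]
        exact_mod_cast this
      simp only [ι, Function.comp_apply, Fin.sum_univ_two, Matrix.cons_val_zero,
        Matrix.cons_val_one, if_true, mul_one]
      have hb : (1 : ℝ) ≤ 1 + ((m : ℝ) ^ 2 + (k : ℝ) ^ 2) := by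
        have := sq_nonneg (m : ℝ); have := sq_nonneg (k : ℝ); linarith
      have h1 : (1 + ((m : ℝ) ^ 2 + (k : ℝ) ^ 2)) ^ s ≤ ((2 + (k : ℝ) ^ 2) * (m : ℝ) ^ 2) ^ M := by
        calc (1 + ((m : ℝ) ^ 2 + (k : ℝ) ^ 2)) ^ s ≤ (1 + ((m : ℝ) ^ 2 + (k : ℝ) ^ 2)) ^ (M : ℝ) :=
              Real.rpow_le_rpow_of_exponent_le hb hM
          _ = (1 + ((m : ℝ) ^ 2 + (k : ℝ) ^ 2)) ^ M := Real.rpow_natCast _ _
          _ ≤ _ := by
            apply pow_le_pow_left₀ (by positivity)
            nlinarith [sq_nonneg (k : ℝ), mul_nonneg (sq_nonneg (k : ℝ)) (sub_nonneg.2 hm1)]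
      have h2 : ‖c m‖ ^ 2 ≤ (C / |(m : ℝ)| ^ (M + 1)) ^ 2 :=
        pow_le_pow_left₀ (norm_nonneg _) (hC m hm) 2
      calc _ ≤ ((2 + (k : ℝ) ^ 2) * (m : ℝ) ^ 2) ^ M * (C / |(m : ℝ)| ^ (M + 1)) ^ 2 := by gcongr
        _ = (2 + (k : ℝ) ^ 2) ^ M * C ^ 2 * (1 / (m : ℝ) ^ 2) := by
          have hm0 : (m : ℝ) ≠ 0 := by exact_mod_cast hm
          rw [div_pow, ← pow_mul, mul_comm (M + 1) 2, pow_mul, sq_abs, mul_pow, pow_succ]
          field_simp
          ring
    have hsum : Summable fun m : ℤ => (2 + (k : ℝ) ^ 2) ^ M * C ^ 2 * (1 / (m : ℝ) ^ 2) := by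
      apply Summable.mul_left
      exact Real.summable_one_div_int_pow.2 (by norm_num)
    refine Summable.of_norm_bounded_eventually hsum ?_
    have hfin : ({0} : Set ℤ).Finite := Set.finite_singleton 0
    filter_upwards [hfin.compl_mem_cofinite] with m hm
    rw [Real.norm_of_nonneg]
    · exact hbound m hm
    · simp only [Function.comp_apply]
      positivity
  · intro n hn
    have : n 1 ≠ k := by
      intro h
      apply hn
      refine ⟨n 0, ?_⟩
      ext i
      fin_cases i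
      · simp [ι]
      · simp [ι, h]
    simp [this]

/-- Functions of the form `g(x₀) e^{2π i k x₁}` with `g` smooth are of class `H^s` for all `s`. -/
lemma memHs_prod (s : ℝ) {g : ℝ → ℂ} (hg : ContDiff ℝ ∞ g) (hper : Function.Periodic g 1) (k : ℤ) :
    MemHs s (fun x : T2 => circleFun g hper (x 0) * (fourier k (x 1) : ℂ)) := by
  constructor
  · have hcont : Continuous (fun x : T2 => circleFun g hper (x 0) * (fourier k (x 1) : ℂ)) :=
      ((continuous_circleFun hper hg.continuous).comp (continuous_apply 0)).mul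
        ((map_continuous (fourier k)).comp (continuous_apply 1))
    exact hcont.memLp_of_hasCompactSupport (HasCompactSupport.of_compactSpace _)
  · simp_rw [mFourierCoeff_prod]
    apply summable_aux
    intro N
    obtain ⟨C, hC0, hC⟩ := fourierCoeffOn_decay N hg hper
    refine ⟨C, hC0, fun n hn => ?_⟩
    rw [fourierCoeff_circleFun]
    exact hC n hn

/-! ### Shear maps -/

/-- The shear `(x₀, x₁) ↦ (x₀, x₁ + u(x₀))`. -/
def shearHomeo (u : C(UnitAddCircle, ℝ)) : T2 ≃ₜ T2 where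
  toFun x := ![x 0, x 1 + (u (x 0) : UnitAddCircle)]
  invFun x := ![x 0, x 1 - (u (x 0) : UnitAddCircle)]
  left_inv x := by ext i; fin_cases i <;> simp
  right_inv x := by ext i; fin_cases i <;> simp
  continuous_toFun := by
    have h : Continuous (fun x : T2 => ((u (x 0) : ℝ) : UnitAddCircle)) :=
      (AddCircle.continuous_mk' 1).comp (u.continuous.comp (continuous_apply 0))
    refine continuous_pi fun i => ?_
    fin_cases i
    · exact continuous_apply 0
    · exact (continuous_apply 1).add h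
  continuous_invFun := by
    have h : Continuous (fun x : T2 => ((u (x 0) : ℝ) : UnitAddCircle)) :=
      (AddCircle.continuous_mk' 1).comp (u.continuous.comp (continuous_apply 0))
    refine continuous_pi fun i => ?_
    fin_cases i
    · exact continuous_apply 0
    · exact (continuous_apply 1).sub h

lemma shearHomeo_apply (u : C(UnitAddCircle, ℝ)) (x : T2) :
    shearHomeo u x = ![x 0, x 1 + (u (x 0) : UnitAddCircle)] := rfl

lemma shearHomeo_symm_apply (u : C(UnitAddCircle, ℝ)) (x : T2) :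
    (shearHomeo u).symm x = ![x 0, x 1 - (u (x 0) : UnitAddCircle)] := rfl

lemma measurePreserving_shearHomeo (u : C(UnitAddCircle, ℝ)) :
    MeasurePreserving (shearHomeo u) volume volume := by
  have h1 : Measurable (Function.uncurry fun (a c : UnitAddCircle) =>
      c + ((u a : ℝ) : UnitAddCircle)) := by
    apply Continuous.measurable
    exact continuous_snd.add ((AddCircle.continuous_mk' 1).comp (u.continuous.comp continuous_fst))
  have h2 : MeasurePreserving (fun p : UnitAddCircle × UnitAddCircle =>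
      (p.1, p.2 + ((u p.1 : ℝ) : UnitAddCircle))) (volume.prod volume) (volume.prod volume) :=
    (MeasurePreserving.id volume).skew_product h1
      (ae_of_all _ fun a => (measurePreserving_add_right volume _).map_eq)
  have h3 := volume_preserving_finTwoArrow UnitAddCircle
  have h4 := (h3.symm MeasurableEquiv.finTwoArrow).comp (h2.comp h3)
  have h5 : ⇑(shearHomeo u) = (⇑MeasurableEquiv.finTwoArrow.symm ∘
      (fun p : UnitAddCircle × UnitAddCircle => (p.1, p.2 + ((u p.1 : ℝ) : UnitAddCircle))) ∘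
        ⇑MeasurableEquiv.finTwoArrow) := by
    funext x
    ext i
    fin_cases i <;> rfl
  rw [h5]
  exact h4

lemma fourier_one_add (x y : UnitAddCircle) :
    (fourier 1 (x + y) : ℂ) = fourier 1 x * fourier 1 y := by
  simp [AddCircle.toCircle_add]

lemma contDiff_expChar {v : ℝ → ℝ} (hv : ContDiff ℝ ∞ v) :
    ContDiff ℝ ∞ (fun y : ℝ => (fourier 1 ((v y : ℝ) : UnitAddCircle) : ℂ)) := by
  have h : (fun y : ℝ => (fourier 1 ((v y : ℝ) : UnitAddCircle) : ℂ)) =
      fun y : ℝ => Complex.exp (2 * Real.pi * Complex.I * (v y : ℂ)) := by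
    ext y
    rw [fourier_coe_apply]
    simp
  rw [h]
  have : ContDiff ℝ ∞ (fun y : ℝ => (v y : ℂ)) := Complex.ofRealCLM.contDiff.comp hv
  exact (contDiff_const.mul this).cexp

lemma periodic_fourier_coe : Function.Periodic (fun y : ℝ => (fourier 1 (y : UnitAddCircle) : ℂ)) 1 := by
  intro y
  simp only [AddCircle.coe_add_period]

lemma memHsMap_shear (s : ℝ) (v : ℝ → ℝ) (hv : ContDiff ℝ ∞ v) (hper : Function.Periodic v 1) :
    MemHsMap s (fun x : T2 => ![x 0, x 1 + ((circleFun v hper (x 0) : ℝ) : UnitAddCircle)]) := by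
  intro i
  fin_cases i
  · have h := memHs_prod s (contDiff_expChar (v := fun y => y) contDiff_id) periodic_fourier_coe 0
    convert h using 2 with x
    obtain ⟨y, hy⟩ := QuotientAddGroup.mk_surjective (x 0)
    have hy' : ((y : ℝ) : UnitAddCircle) = x 0 := hy
    simp [← hy']
  · have hper2 : Function.Periodic (fun y : ℝ => (fourier 1 ((v y : ℝ) : UnitAddCircle) : ℂ)) 1 := by
      intro y
      simp only [hper y]
    have h := memHs_prod s (contDiff_expChar hv) hper2 1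
    convert h using 2 with x
    obtain ⟨y, hy⟩ := QuotientAddGroup.mk_surjective (x 0)
    have hy' : ((y : ℝ) : UnitAddCircle) = x 0 := hy
    simp only [Fin.mk_one, Fin.isValue, Matrix.cons_val_one, Matrix.cons_val_fin_one, ← hy',
      circleFun_coe]
    rw [fourier_one_add, mul_comm]

/-- The shear `(x₀, x₁) ↦ (x₀, x₁ + v(x₀))`, for a smooth `1`-periodic function `v`, as an element of
`𝒟^s_μ(T²)`. -/
def shear (s : ℝ) (v : ℝ → ℝ) (hv : ContDiff ℝ ∞ v) (hper : Function.Periodic v 1) : SDiff s where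
  toHomeo := shearHomeo ⟨circleFun v hper, continuous_circleFun hper hv.continuous⟩
  volumePreserving := measurePreserving_shearHomeo _
  memHs := memHsMap_shear s v hv hper
  memHs_symm := by
    have hper' : Function.Periodic (fun y => -v y) 1 := fun y => by simp only [hper y]
    have h := memHsMap_shear s (fun y => -v y) hv.neg hper'
    convert h using 2 with x
    obtain ⟨y, hy⟩ := QuotientAddGroup.mk_surjective (x 0)
    have hy' : ((y : ℝ) : UnitAddCircle) = x 0 := hy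
    rw [shearHomeo_symm_apply]
    simp only [ContinuousMap.coe_mk, ← hy', circleFun_coe]
    simp [sub_eq_add_neg]

lemma shear_apply (s : ℝ) (v : ℝ → ℝ) (hv : ContDiff ℝ ∞ v) (hper : Function.Periodic v 1) (x : T2) :
    shear s v hv hper x = ![x 0, x 1 + ((circleFun v hper (x 0) : ℝ) : UnitAddCircle)] := rfl


instance : IsFiniteMeasure stMeasure := by unfold stMeasure; infer_instance

lemma norm_toLp_sq {w : T2 × ℝ → R2} (hw : MemLp w 2 stMeasure) :
    ‖hw.toLp w‖ ^ 2 = ∫ z, ‖w z‖ ^ 2 ∂stMeasure := by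
  rw [← real_inner_self_eq_norm_sq, L2.inner_def]
  apply integral_congr_ae
  filter_upwards [hw.coeFn_toLp] with z hz
  rw [hz, real_inner_self_eq_norm_sq]

/-- The notion of velocity only depends on the class of `w` modulo null sets. -/
lemma IsVelocity.congr {γ : unitInterval → T2 → T2} {w w' : T2 × ℝ → R2}
    (h : IsVelocity γ w) (hw : w =ᵐ[stMeasure] w') : IsVelocity γ w' := by
  have h1 : ∀ᵐ x : T2, ∀ᵐ τ ∂(volume.restrict (Icc (0 : ℝ) 1)), w (x, τ) = w' (x, τ) :=
    Measure.ae_ae_of_ae_prod hw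
  filter_upwards [h, h1] with x hx hx1 t
  rw [hx t]
  congr 2
  apply intervalIntegral.integral_congr_ae
  rw [uIoc_of_le t.2.1]
  rw [ae_restrict_iff' measurableSet_Icc] at hx1
  filter_upwards [hx1] with τ hτ hτ2
  exact hτ ⟨hτ2.1.le, hτ2.2.trans t.2.2⟩

lemma proj_add (v w : R2) : proj (v + w) = proj v + proj w := by
  ext i; simp [proj]

lemma proj_sub (v w : R2) : proj (v - w) = proj v - proj w := by
  ext i; simp [proj]

@[simp] lemma proj_zero : proj 0 = 0 := by
  ext i; simp [proj]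

/-- A continuous path in `ℝ²` starting at `0` whose projection to `T²` is constant is constant. -/
lemma eq_zero_of_proj_eq_zero {f : ℝ → R2} (hf : ContinuousOn f (Icc 0 1)) (h0 : f 0 = 0)
    (h : ∀ t ∈ Icc (0 : ℝ) 1, proj (f t) = 0) : ∀ t ∈ Icc (0 : ℝ) 1, f t = 0 := by
  intro t ht
  ext i
  have hint : ∀ t ∈ Icc (0 : ℝ) 1, ∃ n : ℤ, (n : ℝ) = f t i := by
    intro t ht
    have := congr_fun (h t ht) i
    simp only [proj, Pi.zero_apply] at this
    obtain ⟨n, hn⟩ := (AddCircle.coe_eq_zero_iff (1 : ℝ)).1 this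
    exact ⟨n, by simpa using hn⟩
  have hc : ContinuousOn (fun t => f t i) (Icc (0 : ℝ) 1) :=
    (EuclideanSpace.proj (𝕜 := ℝ) i).continuous.comp_continuousOn hf
  by_contra hne
  obtain ⟨n, hn⟩ := hint t ht
  have hne' : f t i ≠ 0 := hne
  -- the value at `t` is a nonzero integer; take a value strictly between
  have hpre : IsPreconnected ((fun t => f t i) '' Icc (0 : ℝ) 1) :=
    isPreconnected_Icc.image _ hc
  have hmem0 : (0 : ℝ) ∈ (fun t => f t i) '' Icc (0 : ℝ) 1 := ⟨0, by simp, by simp [h0]⟩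
  have hmemt : f t i ∈ (fun t => f t i) '' Icc (0 : ℝ) 1 := ⟨t, ht, rfl⟩
  have hord := hpre.ordConnected
  rcases lt_or_gt_of_ne hne' with hlt | hgt
  · have hn1 : (n : ℝ) ≤ -1 := by
      have : n < 0 := by rw [← hn] at hlt; exact Int.cast_lt_zero.1 hlt
      have : n ≤ -1 := by omega
      exact_mod_cast this
    have hmem : (-(1 / 2) : ℝ) ∈ (fun t => f t i) '' Icc (0 : ℝ) 1 :=
      hord.out hmemt hmem0 ⟨by rw [← hn]; linarith, by norm_num⟩
    obtain ⟨τ, hτ, hτ2⟩ := hmem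
    obtain ⟨m, hm⟩ := hint τ hτ
    simp only at hτ2
    rw [← hm] at hτ2
    have h1 : (2 * m : ℝ) = -1 := by linarith
    have h2 : (2 * m : ℤ) = -1 := by exact_mod_cast h1
    omega
  · have hn1 : (1 : ℝ) ≤ n := by
      have : 0 < n := by rw [← hn] at hgt; exact Int.cast_pos.1 hgt
      have : 1 ≤ n := by omega
      exact_mod_cast this
    have hmem : ((1 / 2) : ℝ) ∈ (fun t => f t i) '' Icc (0 : ℝ) 1 :=
      hord.out hmem0 hmemt ⟨by norm_num, by rw [← hn]; linarith⟩
    obtain ⟨τ, hτ, hτ2⟩ := hmem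
    obtain ⟨m, hm⟩ := hint τ hτ
    simp only at hτ2
    rw [← hm] at hτ2
    have h1 : (2 * m : ℝ) = 1 := by linarith
    have h2 : (2 * m : ℤ) = 1 := by exact_mod_cast h1
    omega

/-- The velocity of a curve is unique. -/
lemma IsVelocity.unique {γ : unitInterval → T2 → T2} {w w' : L2}
    (h : IsVelocity γ w) (h' : IsVelocity γ w') : w = w' := by
  have hint : ∀ u : L2, ∀ᵐ x : T2, IntervalIntegrable (fun τ => u (x, τ)) volume 0 1 := by
    intro u
    have h1 : Integrable u stMeasure := (Lp.memLp u).integrable one_le_two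
    filter_upwards [h1.prod_right_ae] with x hx
    rw [intervalIntegrable_iff_integrableOn_Icc_of_le zero_le_one]
    exact hx
  have key : ∀ᵐ x : T2, ∀ᵐ τ ∂(volume.restrict (Icc (0 : ℝ) 1)), w (x, τ) = w' (x, τ) := by
    filter_upwards [h, h', hint w, hint w'] with x hx hx' hi hi'
    have hi2 : IntervalIntegrable (fun τ => w (x, τ) - w' (x, τ)) volume 0 1 := hi.sub hi'
    have hsub : ∀ t ∈ Icc (0 : ℝ) 1,
        ∫ τ in (0 : ℝ)..t, (w (x, τ) - w' (x, τ)) =
          (∫ τ in (0 : ℝ)..t, w (x, τ)) - ∫ τ in (0 : ℝ)..t, w' (x, τ) := by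
      intro t ht
      apply intervalIntegral.integral_sub
      · exact hi.mono_set (by rw [uIcc_of_le ht.1, uIcc_of_le zero_le_one]; exact Icc_subset_Icc_right ht.2)
      · exact hi'.mono_set (by rw [uIcc_of_le ht.1, uIcc_of_le zero_le_one]; exact Icc_subset_Icc_right ht.2)
    have hcont : ContinuousOn (fun t => ∫ τ in (0 : ℝ)..t, (w (x, τ) - w' (x, τ))) (Icc 0 1) := by
      have := intervalIntegral.continuousOn_primitive_interval' hi2 (left_mem_uIcc)
      rwa [uIcc_of_le zero_le_one] at this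
    have hzero := eq_zero_of_proj_eq_zero hcont (by simp) (by
      intro t ht
      rw [hsub t ht, proj_sub]
      have e1 := hx ⟨t, ht⟩
      have e2 := hx' ⟨t, ht⟩
      rw [e1] at e2
      exact sub_eq_zero.2 (add_left_cancel e2))
    have hder := hi2.ae_hasDerivAt_integral
    rw [ae_restrict_iff' measurableSet_Icc]
    have hne : ∀ᵐ τ : ℝ, τ ≠ 0 ∧ τ ≠ 1 := by
      have h0 : ∀ᵐ τ : ℝ, τ ≠ 0 := by simp [ae_iff]
      have h1 : ∀ᵐ τ : ℝ, τ ≠ 1 := by simp [ae_iff]
      filter_upwards [h0, h1] with τ a b using ⟨a, b⟩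
    filter_upwards [hder, hne] with τ hτ hτne hτI
    have hd := hτ (by rwa [uIcc_of_le zero_le_one]) 0 (by simp)
    have hioo : Ioo (0 : ℝ) 1 ∈ 𝓝 τ :=
      Ioo_mem_nhds (lt_of_le_of_ne hτI.1 (Ne.symm hτne.1)) (lt_of_le_of_ne hτI.2 hτne.2)
    have hd0 : HasDerivAt (fun t => ∫ τ in (0 : ℝ)..t, (w (x, τ) - w' (x, τ))) 0 τ := by
      apply (hasDerivAt_const τ (0 : R2)).congr_of_eventuallyEq
      filter_upwards [hioo] with t ht
      exact hzero t ⟨ht.1.le, ht.2.le⟩
    exact sub_eq_zero.1 (hd.unique hd0)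
  apply Lp.ext
  have hmeas : MeasurableSet {z : T2 × ℝ | (w : T2 × ℝ → R2) z = (w' : T2 × ℝ → R2) z} :=
    measurableSet_eq_fun (Lp.stronglyMeasurable w).measurable (Lp.stronglyMeasurable w').measurable
  exact (Measure.ae_prod_iff_ae_ae hmeas).2 key


/-! ### The profiles -/

/-- The profile `((1 + cos 2πy)/2)^k`. -/
def bump (k : ℕ) (y : ℝ) : ℝ := ((1 + Real.cos (2 * Real.pi * y)) / 2) ^ k

lemma contDiff_bump (k : ℕ) : ContDiff ℝ ∞ (bump k) := by
  unfold bump
  have h : ContDiff ℝ ∞ (fun y : ℝ => Real.cos (2 * Real.pi * y)) :=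
    (contDiff_const.mul contDiff_id).cos
  exact ((contDiff_const.add h).div_const 2).pow k

lemma periodic_bump (k : ℕ) : Function.Periodic (bump k) 1 := by
  intro y
  unfold bump
  rw [mul_add, mul_one, Real.cos_add_two_pi]

lemma bump_zero (k : ℕ) : bump k 0 = 1 := by simp [bump]

lemma bump_nonneg (k : ℕ) (y : ℝ) : 0 ≤ bump k y := by
  unfold bump
  apply pow_nonneg
  have := Real.neg_one_le_cos (2 * Real.pi * y)
  linarith

lemma bump_le_one (k : ℕ) (y : ℝ) : bump k y ≤ 1 := by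
  unfold bump
  apply pow_le_one₀
  · have := Real.neg_one_le_cos (2 * Real.pi * y); linarith
  · have := Real.cos_le_one (2 * Real.pi * y); linarith

/-- The profile as a function on the circle. -/
def cbump (k : ℕ) : UnitAddCircle → ℝ := circleFun (bump k) (periodic_bump k)

lemma continuous_cbump (k : ℕ) : Continuous (cbump k) :=
  continuous_circleFun _ (contDiff_bump k).continuous

lemma cbump_mem (k : ℕ) (y : UnitAddCircle) : cbump k y ∈ Icc (0 : ℝ) 1 := by
  obtain ⟨z, hz⟩ := QuotientAddGroup.mk_surjective y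
  have hz' : ((z : ℝ) : UnitAddCircle) = y := hz
  rw [← hz', cbump, circleFun_coe]
  exact ⟨bump_nonneg k z, bump_le_one k z⟩

lemma cbump_zero (k : ℕ) : cbump k 0 = 1 := by
  have : ((0 : ℝ) : UnitAddCircle) = 0 := rfl
  rw [← this, cbump, circleFun_coe, bump_zero]

lemma ae_ne_zero : ∀ᵐ x : T2, x 0 ≠ 0 := by
  have h := (measurePreserving_eval (fun _ : Fin 2 => (volume : Measure UnitAddCircle)) 0)
  have hz : volume ({0} : Set UnitAddCircle) = 0 := by
    rw [← Metric.closedBall_zero, AddCircle.volume_closedBall]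
    simp
  have h0 : ∀ᵐ y : UnitAddCircle, y ≠ 0 := by simp [ae_iff, hz]
  exact h.quasiMeasurePreserving.ae h0

lemma tendsto_cbump {y : UnitAddCircle} (hy : y ≠ 0) :
    Tendsto (fun k => cbump k y) atTop (𝓝 0) := by
  obtain ⟨z, hz⟩ := QuotientAddGroup.mk_surjective y
  have hz' : ((z : ℝ) : UnitAddCircle) = y := hz
  have hcos : Real.cos (2 * Real.pi * z) ≠ 1 := by
    intro h
    obtain ⟨n, hn⟩ := (Real.cos_eq_one_iff _).1 h
    apply hy
    rw [← hz', AddCircle.coe_eq_zero_iff]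
    refine ⟨n, ?_⟩
    have : (n : ℝ) = z := by
      have hpi := Real.pi_pos
      field_simp at hn
      linarith
    simpa using this
  have hlt : (1 + Real.cos (2 * Real.pi * z)) / 2 < 1 := by
    have := lt_of_le_of_ne (Real.cos_le_one (2 * Real.pi * z)) hcos
    linarith
  have hge : 0 ≤ (1 + Real.cos (2 * Real.pi * z)) / 2 := by
    have := Real.neg_one_le_cos (2 * Real.pi * z)
    linarith
  simp only [← hz', cbump, circleFun_coe]
  exact tendsto_pow_atTop_nhds_zero_of_lt_one hge hlt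

lemma tendsto_integral_cbump :
    Tendsto (fun k => ∫ x : T2, (cbump k (x 0)) ^ 2) atTop (𝓝 0) := by
  have h : Tendsto (fun k => ∫ x : T2, (cbump k (x 0)) ^ 2) atTop (𝓝 (∫ x : T2, (0 : ℝ))) := by
    apply tendsto_integral_of_dominated_convergence (fun _ => (1 : ℝ))
    · intro k
      exact (((continuous_cbump k).comp (continuous_apply 0)).pow 2).aestronglyMeasurable
    · exact integrable_const _
    · intro k
      filter_upwards with x
      have := cbump_mem k (x 0)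
      rw [Real.norm_of_nonneg (sq_nonneg _)]
      exact pow_le_one₀ this.1 this.2
    · filter_upwards [ae_ne_zero] with x hx
      have := (tendsto_cbump hx).pow 2
      simpa using this
  simpa using h

/-! ### The shear loops -/

/-- The profile of the shear at time `t`. -/
def prof (a : ℝ → ℝ) (k : ℕ) (t : ℝ) (y : ℝ) : ℝ := a t * bump k y

lemma contDiff_prof (a : ℝ → ℝ) (k : ℕ) (t : ℝ) : ContDiff ℝ ∞ (prof a k t) :=
  contDiff_const.mul (contDiff_bump k)

lemma periodic_prof (a : ℝ → ℝ) (k : ℕ) (t : ℝ) : Function.Periodic (prof a k t) 1 := by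
  intro y
  unfold prof
  rw [periodic_bump k y]

/-- The curve of shears `γ(t)(x₀, x₁) = (x₀, x₁ + a(t) ((1 + cos 2πx₀)/2)^k)`. -/
def shearPath (s : ℝ) (a : ℝ → ℝ) (k : ℕ) (t : unitInterval) : SDiff s :=
  shear s (prof a k t) (contDiff_prof a k t) (periodic_prof a k t)

lemma circleFun_prof (a : ℝ → ℝ) (k : ℕ) (t : ℝ) (y : UnitAddCircle) :
    circleFun (prof a k t) (periodic_prof a k t) y = a t * cbump k y := by
  obtain ⟨z, hz⟩ := QuotientAddGroup.mk_surjective y
  have hz' : ((z : ℝ) : UnitAddCircle) = y := hz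
  rw [← hz', cbump, circleFun_coe, circleFun_coe]
  rfl

lemma shearPath_apply (s : ℝ) (a : ℝ → ℝ) (k : ℕ) (t : unitInterval) (x : T2) :
    shearPath s a k t x = ![x 0, x 1 + ((a t * cbump k (x 0) : ℝ) : UnitAddCircle)] := by
  unfold shearPath
  rw [shear_apply, circleFun_prof]

lemma shearPath_eq_self (s : ℝ) {a : ℝ → ℝ} (k : ℕ) {t : unitInterval} (ht : a t = 0) (x : T2) :
    shearPath s a k t x = x := by
  rw [shearPath_apply, ht]
  ext i
  fin_cases i <;> simp

lemma shearPath_eq_add (s : ℝ) (a : ℝ → ℝ) (k : ℕ) (t : unitInterval) (x : T2) :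
    shearPath s a k t x =
      x + proj ((a t * cbump k (x 0)) • EuclideanSpace.single 1 (1 : ℝ)) := by
  rw [shearPath_apply]
  ext i
  fin_cases i <;> simp [proj]

lemma isSmoothPath_shearPath (s : ℝ) {a : ℝ → ℝ} (ha : ContDiff ℝ ∞ a) (k : ℕ) :
    IsSmoothPath (shearPath s a k) := by
  refine ⟨fun z => !₂[z.2 0, z.2 1 + a z.1 * bump k (z.2 0)], ?_, ?_⟩
  · have h0 : ContDiff ℝ ∞ (fun z : ℝ × R2 => z.2 0) :=
      (EuclideanSpace.proj (𝕜 := ℝ) (0 : Fin 2)).contDiff.comp contDiff_snd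
    have h1 : ContDiff ℝ ∞ (fun z : ℝ × R2 => z.2 1) :=
      (EuclideanSpace.proj (𝕜 := ℝ) (1 : Fin 2)).contDiff.comp contDiff_snd
    have ha : ContDiff ℝ ∞ (fun z : ℝ × R2 => a z.1) := ha.comp contDiff_fst
    have hb : ContDiff ℝ ∞ (fun z : ℝ × R2 => bump k (z.2 0)) := (contDiff_bump k).comp h0
    rw [contDiff_euclidean]
    intro i
    fin_cases i
    · exact h0
    · exact h1.add (ha.mul hb)
  · intro t x
    rw [shearPath_apply]
    ext i
    fin_cases i <;> simp [proj, cbump]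

end Pool.Agent.Lib.MP_45c189_gt
end
end

section

/-!
# Inserting a short shear loop into a curve of diffeomorphisms
-/

open Filter Topology Set MeasureTheory
open scoped Manifold ContDiff ENNReal

noncomputable section

namespace Pool.Agent.Lib.MP_45c189_gt

/-- A smooth monotone change of time which is constant on `[1/2 - δ, 1/2 + δ]` and has derivative
at most `1 / (1 - 4 δ)`. -/
lemma exists_pause {δ : ℝ} (hδ : 0 < δ) (hδ' : δ < 1 / 4) :
    ∃ θ ρ : ℝ → ℝ, ContDiff ℝ ∞ θ ∧ Monotone θ ∧ θ 0 = 0 ∧ θ 1 = 1 ∧ Continuous ρ ∧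
      (∀ t, HasDerivAt θ (ρ t) t) ∧ (∀ t, 0 ≤ ρ t) ∧ (∀ t, ρ t ≤ 1 / (1 - 4 * δ)) ∧
      ∀ t ∈ Icc (1 / 2 - δ) (1 / 2 + δ), θ t = 1 / 2 ∧ ρ t = 0 := by
  let b : ContDiffBump (1 / 2 : ℝ) := ⟨δ, 2 * δ, hδ, by linarith⟩
  let g : ℝ → ℝ := fun t => 1 - b t
  have hgc : ContDiff ℝ ∞ g := contDiff_const.sub b.contDiff
  have hgcont : Continuous g := hgc.continuous
  have hgint : ∀ u v : ℝ, IntervalIntegrable g volume u v := fun u v => hgcont.intervalIntegrable u v
  have hg0 : ∀ t, 0 ≤ g t := fun t => sub_nonneg.2 b.le_one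
  have hg1 : ∀ t, g t ≤ 1 := fun t => by
    have := b.nonneg (x := t); simp only [g]; linarith
  have hbsymm : ∀ t, g (1 - t) = g t := by
    intro t
    have h := b.sub (t - 1 / 2)
    have e1 : (1 / 2 : ℝ) - (t - 1 / 2) = 1 - t := by ring
    have e2 : (1 / 2 : ℝ) + (t - 1 / 2) = t := by ring
    rw [e1, e2] at h
    simp only [g, h]
  -- the total mass
  set c : ℝ := ∫ t in (0 : ℝ)..1, g t with hc
  have hhalf : ∫ t in (0 : ℝ)..(1 / 2), g t = ∫ t in (1 / 2 : ℝ)..1, g t := by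
    have h := intervalIntegral.integral_comp_sub_left (a := 0) (b := 1 / 2) (f := g) (1 : ℝ)
    simp only [hbsymm] at h
    rw [h]
    norm_num
  have hsum : (∫ t in (0 : ℝ)..(1 / 2), g t) + ∫ t in (1 / 2 : ℝ)..1, g t = c :=
    intervalIntegral.integral_add_adjacent_intervals (hgint _ _) (hgint _ _)
  have hhalf' : ∫ t in (0 : ℝ)..(1 / 2), g t = c / 2 := by linarith
  have hcge : 1 - 4 * δ ≤ c := by
    have h1 : c = 1 - ∫ t in (0 : ℝ)..1, b t := by
      rw [hc]
      simp only [g]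
      rw [intervalIntegral.integral_sub (by simp) (b.continuous.intervalIntegrable _ _)]
      simp
    have h2 : ∫ t in (0 : ℝ)..1, b t ≤ 4 * δ := by
      have hle1 : (1 / 2 : ℝ) - 2 * δ ≤ 1 / 2 + 2 * δ := by linarith
      have h3 : ∫ t in (0 : ℝ)..(1 / 2 - 2 * δ), b t = 0 := by
        have : ∀ t ∈ uIcc (0 : ℝ) (1 / 2 - 2 * δ), b t = (fun _ => (0 : ℝ)) t := by
          intro t ht
          rw [uIcc_of_le (by linarith)] at ht
          apply b.zero_of_le_dist
          rw [Real.dist_eq, abs_sub_comm, abs_of_nonneg (by linarith [ht.2])]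
          change 2 * δ ≤ _
          linarith [ht.2]
        rw [intervalIntegral.integral_congr this]
        simp
      have h4 : ∫ t in (1 / 2 + 2 * δ : ℝ)..1, b t = 0 := by
        have : ∀ t ∈ uIcc (1 / 2 + 2 * δ : ℝ) 1, b t = (fun _ => (0 : ℝ)) t := by
          intro t ht
          rw [uIcc_of_le (by linarith)] at ht
          apply b.zero_of_le_dist
          rw [Real.dist_eq, abs_of_nonneg (by linarith [ht.1])]
          change 2 * δ ≤ _
          linarith [ht.1]
        rw [intervalIntegral.integral_congr this]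
        simp
      have h5 : ∫ t in (1 / 2 - 2 * δ : ℝ)..(1 / 2 + 2 * δ), b t ≤ 4 * δ := by
        have := intervalIntegral.integral_mono_on (μ := volume) hle1
          (b.continuous.intervalIntegrable _ _) (intervalIntegrable_const (c := (1 : ℝ)))
          (fun t _ => b.le_one (x := t))
        refine this.trans ?_
        rw [intervalIntegral.integral_const, smul_eq_mul]
        linarith
      have hint : ∀ u v : ℝ, IntervalIntegrable b volume u v :=
        fun u v => b.continuous.intervalIntegrable u v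
      have h6 := intervalIntegral.integral_add_adjacent_intervals
        (hint 0 (1 / 2 - 2 * δ)) (hint (1 / 2 - 2 * δ) (1 / 2 + 2 * δ))
      have h7 := intervalIntegral.integral_add_adjacent_intervals
        (hint 0 (1 / 2 + 2 * δ)) (hint (1 / 2 + 2 * δ) 1)
      linarith
    linarith
  have hcpos : 0 < c := by linarith
  have hder : ∀ t, HasDerivAt (fun t => (∫ τ in (0 : ℝ)..t, g τ) / c) (g t / c) t := by
    intro t
    exact (intervalIntegral.integral_hasDerivAt_right (hgint _ _)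
      (hgcont.stronglyMeasurableAtFilter _ _) hgcont.continuousAt).div_const c
  refine ⟨fun t => (∫ τ in (0 : ℝ)..t, g τ) / c, fun t => g t / c, ?_, ?_, ?_, ?_, ?_, hder, ?_, ?_,
    ?_⟩
  · rw [contDiff_infty_iff_deriv]
    refine ⟨fun t => (hder t).differentiableAt, ?_⟩
    have : deriv (fun t => (∫ τ in (0 : ℝ)..t, g τ) / c) = fun t => g t / c :=
      funext fun t => (hder t).deriv
    rw [this]
    exact hgc.div_const c
  · apply monotone_of_deriv_nonneg (fun t => (hder t).differentiableAt)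
    intro t
    rw [(hder t).deriv]
    exact div_nonneg (hg0 t) hcpos.le
  · simp
  · simp only
    rw [← hc, div_self hcpos.ne']
  · exact hgcont.div_const c
  · intro t; exact div_nonneg (hg0 t) hcpos.le
  · intro t
    have h1 : 0 < 1 - 4 * δ := by linarith
    calc g t / c ≤ 1 / c := by gcongr; exact hg1 t
      _ ≤ 1 / (1 - 4 * δ) := one_div_le_one_div_of_le h1 hcge
  · intro t ht
    have hgz : ∀ u ∈ Icc (1 / 2 - δ) (1 / 2 + δ), g u = 0 := by
      intro u hu
      have : b u = 1 := by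
        apply b.one_of_mem_closedBall
        rw [Metric.mem_closedBall, Real.dist_eq, abs_le]
        change -δ ≤ _ ∧ _ ≤ δ
        constructor <;> linarith [hu.1, hu.2]
      simp only [g, this, sub_self]
    constructor
    · have h1 : ∫ τ in (1 / 2 : ℝ)..t, g τ = 0 := by
        have : ∀ u ∈ uIcc (1 / 2 : ℝ) t, g u = (fun _ => (0 : ℝ)) u := by
          intro u hu
          apply hgz
          have hsub : uIcc (1 / 2 : ℝ) t ⊆ Icc (1 / 2 - δ) (1 / 2 + δ) := by
            rw [← uIcc_of_le (by linarith : (1 / 2 : ℝ) - δ ≤ 1 / 2 + δ)]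
            apply uIcc_subset_uIcc
            · rw [uIcc_of_le (by linarith)]; constructor <;> linarith
            · rwa [uIcc_of_le (by linarith)]
          exact hsub hu
        rw [intervalIntegral.integral_congr this]
        simp
      have h2 := intervalIntegral.integral_add_adjacent_intervals (hgint 0 (1 / 2)) (hgint (1 / 2) t)
      simp only
      rw [← h2, h1, hhalf', add_zero]
      field_simp
    · simp only [hgz t ht, zero_div]

/-- A smooth amplitude supported in `[1/2 - δ, 1/2 + δ]` and equal to `1/2` at time `1/2`. -/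
lemma exists_amplitude {δ : ℝ} (hδ : 0 < δ) :
    ∃ a a' : ℝ → ℝ, ContDiff ℝ ∞ a ∧ Continuous a' ∧ (∀ t, HasDerivAt a (a' t) t) ∧
      a (1 / 2) = 1 / 2 ∧ ∀ t, t ∉ Icc (1 / 2 - δ) (1 / 2 + δ) → a t = 0 ∧ a' t = 0 := by
  let b : ContDiffBump (1 / 2 : ℝ) := ⟨δ / 2, δ, by linarith, by linarith⟩
  have hac : ContDiff ℝ ∞ (fun t => (1 / 2 : ℝ) * b t) := contDiff_const.mul b.contDiff
  refine ⟨fun t => (1 / 2 : ℝ) * b t, deriv (fun t => (1 / 2 : ℝ) * b t), hac,
    hac.continuous_deriv (by simp), fun t => (hac.differentiable (by simp) t).hasDerivAt, ?_, ?_⟩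
  · have : b (1 / 2) = 1 := by
      apply b.one_of_mem_closedBall
      apply Metric.mem_closedBall_self
      change 0 ≤ δ / 2
      linarith
    simp only [this, mul_one]
  · intro t ht
    have hout : ∀ u, u ∉ Icc (1 / 2 - δ) (1 / 2 + δ) → (1 / 2 : ℝ) * b u = 0 := by
      intro u hu
      have : b u = 0 := by
        apply b.zero_of_le_dist
        rw [Real.dist_eq]
        change δ ≤ _
        by_contra hlt
        push Not at hlt
        rw [abs_lt] at hlt
        exact hu ⟨by linarith [hlt.1], by linarith [hlt.2]⟩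
      rw [this, mul_zero]
    refine ⟨hout t ht, ?_⟩
    have hopen : (Icc (1 / 2 - δ) (1 / 2 + δ))ᶜ ∈ 𝓝 t := isClosed_Icc.isOpen_compl.mem_nhds ht
    have hev : (fun t => (1 / 2 : ℝ) * b t) =ᶠ[𝓝 t] fun _ => 0 := by
      filter_upwards [hopen] with u hu using hout u hu
    rw [hev.deriv_eq]
    simp

lemma ofReal_norm_sq_eq_lintegral (w : L2) :
    ENNReal.ofReal (‖w‖ ^ 2) = ∫⁻ z, ENNReal.ofReal (‖w z‖ ^ 2) ∂stMeasure := by
  have h1 : ‖w‖ ^ 2 = ∫ z, ‖w z‖ ^ 2 ∂stMeasure := by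
    have := norm_toLp_sq (Lp.memLp w)
    rwa [Lp.toLp_coeFn] at this
  rw [h1]
  apply ofReal_integral_eq_lintegral_ofReal
  · exact (memLp_two_iff_integrable_sq_norm (Lp.memLp w).aestronglyMeasurable).1 (Lp.memLp w)
  · filter_upwards with z using sq_nonneg _

/-- The velocity of the modified curve. -/
def pauseVel (w : L2) (θ ρ a' : ℝ → ℝ) (k : ℕ) (η : T2 → T2) (z : T2 × ℝ) : R2 :=
  ρ z.2 • w (z.1, θ z.2) + (a' z.2 * cbump k (η z.1 0)) • EuclideanSpace.single 1 (1 : ℝ)

lemma stronglyMeasurable_pauseVel (w : L2) {θ ρ a' : ℝ → ℝ} (hθ : Measurable θ)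
    (hρ : Continuous ρ) (ha' : Continuous a') (k : ℕ) {η : T2 → T2} (hη : Continuous η) :
    StronglyMeasurable (pauseVel w θ ρ a' k η) := by
  have h1 : StronglyMeasurable fun z : T2 × ℝ => ρ z.2 :=
    (hρ.comp continuous_snd).stronglyMeasurable
  have h2 : StronglyMeasurable fun z : T2 × ℝ => w (z.1, θ z.2) :=
    (Lp.stronglyMeasurable w).comp_measurable (measurable_fst.prodMk (hθ.comp measurable_snd))
  have h3 : StronglyMeasurable fun z : T2 × ℝ => a' z.2 * cbump k (η z.1 0) :=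
    ((ha'.comp continuous_snd).mul ((continuous_cbump k).comp
      ((continuous_apply 0).comp (hη.comp continuous_fst)))).stronglyMeasurable
  exact (h1.smul h2).add (h3.smul_const _)

lemma lintegral_stMeasure {f : T2 × ℝ → ℝ≥0∞} (hf : Measurable f) :
    ∫⁻ z, f z ∂stMeasure = ∫⁻ x : T2, ∫⁻ t in Icc (0 : ℝ) 1, f (x, t) :=
  lintegral_prod _ hf.aemeasurable

lemma lintegral_pauseVel_le (w : L2) {θ ρ a' : ℝ → ℝ} (hθmono : Monotone θ) (hθ0 : θ 0 = 0)
    (hθ1 : θ 1 = 1) (hρ : Continuous ρ) (hθρ : ∀ t, HasDerivAt θ (ρ t) t) (hρ0 : ∀ t, 0 ≤ ρ t)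
    {K : ℝ} (hρK : ∀ t, ρ t ≤ K) (ha' : Continuous a') (hρa : ∀ t, ρ t = 0 ∨ a' t = 0)
    (k : ℕ) {η : T2 → T2} (hη : Continuous η) (hηmp : MeasurePreserving η volume volume) :
    ∫⁻ z, ENNReal.ofReal (‖pauseVel w θ ρ a' k η z‖ ^ 2) ∂stMeasure ≤
      ENNReal.ofReal K * ENNReal.ofReal (‖w‖ ^ 2) +
        ENNReal.ofReal ((∫ t in Icc (0 : ℝ) 1, a' t ^ 2) * ∫ x : T2, (cbump k (x 0)) ^ 2) := by
  have hθc : Continuous θ := continuous_iff_continuousAt.2 fun t => (hθρ t).continuousAt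
  have hK0 : 0 ≤ K := (hρ0 0).trans (hρK 0)
  -- pointwise bound
  have hpt : ∀ z : T2 × ℝ, ENNReal.ofReal (‖pauseVel w θ ρ a' k η z‖ ^ 2) ≤
      ENNReal.ofReal K * (ENNReal.ofReal (ρ z.2) * ENNReal.ofReal (‖w (z.1, θ z.2)‖ ^ 2)) +
        ENNReal.ofReal (cbump k (η z.1 0) ^ 2) * ENNReal.ofReal (a' z.2 ^ 2) := by
    intro z
    have h1 : ‖pauseVel w θ ρ a' k η z‖ ^ 2 ≤
        K * (ρ z.2 * ‖w (z.1, θ z.2)‖ ^ 2) + cbump k (η z.1 0) ^ 2 * a' z.2 ^ 2 := by
      unfold pauseVel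
      rcases hρa z.2 with h | h
      · rw [h, zero_smul, zero_add, norm_smul, PiLp.norm_single, norm_one, mul_one,
          Real.norm_eq_abs, sq_abs]
        apply le_of_eq
        ring
      · rw [h, zero_mul, zero_smul, add_zero, norm_smul, Real.norm_eq_abs,
          abs_of_nonneg (hρ0 _), mul_pow]
        have : ρ z.2 ^ 2 * ‖w (z.1, θ z.2)‖ ^ 2 ≤ K * (ρ z.2 * ‖w (z.1, θ z.2)‖ ^ 2) := by
          rw [sq, mul_assoc]
          exact mul_le_mul_of_nonneg_right (hρK _) (mul_nonneg (hρ0 _) (sq_nonneg _))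
        linarith
    calc ENNReal.ofReal (‖pauseVel w θ ρ a' k η z‖ ^ 2)
        ≤ ENNReal.ofReal (K * (ρ z.2 * ‖w (z.1, θ z.2)‖ ^ 2) +
            cbump k (η z.1 0) ^ 2 * a' z.2 ^ 2) := ENNReal.ofReal_le_ofReal h1
      _ = _ := by
        rw [ENNReal.ofReal_add, ENNReal.ofReal_mul hK0, ENNReal.ofReal_mul (hρ0 _),
          ENNReal.ofReal_mul (sq_nonneg _)]
        · exact mul_nonneg hK0 (mul_nonneg (hρ0 _) (sq_nonneg _))
        · positivity
  have hmeas1 : Measurable fun z : T2 × ℝ =>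
      ENNReal.ofReal (ρ z.2) * ENNReal.ofReal (‖w (z.1, θ z.2)‖ ^ 2) := by
    have h1 : Measurable fun z : T2 × ℝ => ENNReal.ofReal (ρ z.2) :=
      (hρ.comp continuous_snd).measurable.ennreal_ofReal
    have h2 : Measurable fun z : T2 × ℝ => ENNReal.ofReal (‖w (z.1, θ z.2)‖ ^ 2) :=
      (((Lp.stronglyMeasurable w).comp_measurable
        (measurable_fst.prodMk (hθc.measurable.comp measurable_snd))).norm.measurable.pow_const
          2).ennreal_ofReal
    exact h1.mul h2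
  have hmeas2 : Measurable fun z : T2 × ℝ => ENNReal.ofReal (‖w z‖ ^ 2) :=
    ((Lp.stronglyMeasurable w).norm.measurable.pow_const 2).ennreal_ofReal
  have hmeas3 : Measurable fun x : T2 => ENNReal.ofReal (cbump k (η x 0) ^ 2) :=
    ((((continuous_cbump k).comp ((continuous_apply 0).comp hη)).pow 2).measurable).ennreal_ofReal
  have hmeas4 : Measurable fun t : ℝ => ENNReal.ofReal (a' t ^ 2) :=
    ((ha'.pow 2).measurable).ennreal_ofReal
  have hmeas5 : Measurable fun z : T2 × ℝ =>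
      ENNReal.ofReal (cbump k (η z.1 0) ^ 2) * ENNReal.ofReal (a' z.2 ^ 2) :=
    (hmeas3.comp measurable_fst).mul (hmeas4.comp measurable_snd)
  -- first term
  have hfirst : ∫⁻ z, ENNReal.ofReal (ρ z.2) * ENNReal.ofReal (‖w (z.1, θ z.2)‖ ^ 2) ∂stMeasure =
      ENNReal.ofReal (‖w‖ ^ 2) := by
    rw [ofReal_norm_sq_eq_lintegral, lintegral_stMeasure hmeas1, lintegral_stMeasure hmeas2]
    apply lintegral_congr
    intro x
    have himg : θ '' Icc 0 1 = Icc 0 1 := by
      have := hθc.continuousOn.image_Icc_of_monotoneOn (zero_le_one (α := ℝ)) (hθmono.monotoneOn _)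
      rwa [hθ0, hθ1] at this
    have h := lintegral_image_eq_lintegral_deriv_mul_of_monotoneOn (s := Icc (0 : ℝ) 1)
      measurableSet_Icc (fun t _ => (hθρ t).hasDerivWithinAt) (hθmono.monotoneOn _)
      (fun u => ENNReal.ofReal (‖w (x, u)‖ ^ 2))
    rw [himg] at h
    exact h.symm
  -- second term
  have hsecond : ∫⁻ z, ENNReal.ofReal (cbump k (η z.1 0) ^ 2) * ENNReal.ofReal (a' z.2 ^ 2)
      ∂stMeasure =
      ENNReal.ofReal ((∫ t in Icc (0 : ℝ) 1, a' t ^ 2) * ∫ x : T2, (cbump k (x 0)) ^ 2) := by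
    unfold stMeasure
    rw [lintegral_prod_mul hmeas3.aemeasurable hmeas4.aemeasurable, mul_comm (∫ t in _, _),
      ENNReal.ofReal_mul (integral_nonneg fun x => sq_nonneg _)]
    congr 1
    · have h1 : ∫⁻ x : T2, ENNReal.ofReal (cbump k (η x 0) ^ 2) =
          ∫⁻ x : T2, ENNReal.ofReal (cbump k (x 0) ^ 2) :=
        hηmp.lintegral_comp (f := fun x : T2 => ENNReal.ofReal (cbump k (x 0) ^ 2))
          ((((continuous_cbump k).comp (continuous_apply 0)).pow 2).measurable).ennreal_ofReal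
      rw [h1]
      symm
      apply ofReal_integral_eq_lintegral_ofReal
      · have hcont : Continuous fun x : T2 => cbump k (x 0) ^ 2 :=
          ((continuous_cbump k).comp (continuous_apply 0)).pow 2
        exact hcont.integrable_of_hasCompactSupport (HasCompactSupport.of_compactSpace _)
      · filter_upwards with x using sq_nonneg _
    · symm
      apply ofReal_integral_eq_lintegral_ofReal
      · exact (ha'.pow 2).continuousOn.integrableOn_compact isCompact_Icc
      · filter_upwards with x using sq_nonneg _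
  calc ∫⁻ z, ENNReal.ofReal (‖pauseVel w θ ρ a' k η z‖ ^ 2) ∂stMeasure
      ≤ ∫⁻ z, (ENNReal.ofReal K * (ENNReal.ofReal (ρ z.2) *
          ENNReal.ofReal (‖w (z.1, θ z.2)‖ ^ 2)) +
        ENNReal.ofReal (cbump k (η z.1 0) ^ 2) * ENNReal.ofReal (a' z.2 ^ 2)) ∂stMeasure :=
        lintegral_mono hpt
    _ = ENNReal.ofReal K * ENNReal.ofReal (‖w‖ ^ 2) +
        ENNReal.ofReal ((∫ t in Icc (0 : ℝ) 1, a' t ^ 2) * ∫ x : T2, (cbump k (x 0)) ^ 2) := by
      rw [lintegral_add_right _ hmeas5, lintegral_const_mul _ hmeas1, hfirst, hsecond]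

/-- The time `1/2`. -/
def half : unitInterval := ⟨1 / 2, by norm_num, by norm_num⟩

lemma isVelocity_pauseVel (s : ℝ) {γ q : unitInterval → T2 → T2} {w : L2} (hw : IsVelocity γ w)
    {θ ρ a a' : ℝ → ℝ} (hθmono : Monotone θ) (hθ0 : θ 0 = 0) (hθ1 : θ 1 = 1)
    (hθρ : ∀ t, HasDerivAt θ (ρ t) t) (hρ0 : ∀ t, 0 ≤ ρ t)
    (ha' : Continuous a') (haa' : ∀ t, HasDerivAt a (a' t) t) (ha0 : a 0 = 0)
    (hθa : ∀ t, a t = 0 ∨ θ t = 1 / 2) (k : ℕ)
    (hq : ∀ t t' : unitInterval, (t' : ℝ) = θ t → ∀ x, q t x = shearPath s a k t (γ t' x)) :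
    IsVelocity q (pauseVel w θ ρ a' k (γ half)) := by
  have hθc : Continuous θ := continuous_iff_continuousAt.2 fun t => (hθρ t).continuousAt
  have hint : ∀ᵐ x : T2, IntegrableOn (fun τ => w (x, τ)) (Icc (0 : ℝ) 1) := by
    have h1 : Integrable w stMeasure := (Lp.memLp w).integrable one_le_two
    exact h1.prod_right_ae
  filter_upwards [hw, hint] with x hx hi t
  have ht0 : (0 : ℝ) ≤ t := t.2.1
  have ht1 : (t : ℝ) ≤ 1 := t.2.2
  have hθt : θ t ∈ Icc (0 : ℝ) 1 := ⟨hθ0 ▸ hθmono ht0, hθ1 ▸ hθmono ht1⟩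
  -- the position at time `t`
  have e1 : q t x = γ 0 x + proj (∫ τ in (0 : ℝ)..θ t, w (x, τ)) +
      proj ((a t * cbump k (γ half x 0)) • EuclideanSpace.single 1 (1 : ℝ)) := by
    rw [hq t ⟨θ t, hθt⟩ rfl x, shearPath_eq_add]
    have key : a t * cbump k (γ ⟨θ t, hθt⟩ x 0) = a t * cbump k (γ half x 0) := by
      rcases hθa t with h | h
      · rw [h, zero_mul, zero_mul]
      · have : (⟨θ t, hθt⟩ : unitInterval) = half := Subtype.ext h
        rw [this]
    rw [key, hx ⟨θ t, hθt⟩]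
  -- the position at time `0`
  have e0 : q 0 x = γ 0 x := by
    rw [hq 0 0 (by simp [hθ0]) x]
    exact shearPath_eq_self s k (by simpa using ha0) _
  -- the integral of the velocity
  have hI1 : ∫ τ in (0 : ℝ)..t, ρ τ • w (x, θ τ) = ∫ τ in (0 : ℝ)..θ t, w (x, τ) := by
    rw [intervalIntegral.integral_of_le ht0, intervalIntegral.integral_of_le hθt.1,
      ← integral_Icc_eq_integral_Ioc, ← integral_Icc_eq_integral_Ioc]
    have h := integral_Icc_deriv_smul_of_deriv_nonneg (a := 0) (b := (t : ℝ))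
      (g := fun u => w (x, u)) hθc.continuousOn (fun τ _ => hθρ τ) (fun τ _ => hρ0 τ) ht0
    rw [hθ0] at h
    exact h
  have hI1int : IntervalIntegrable (fun τ => ρ τ • w (x, θ τ)) volume 0 t := by
    rw [intervalIntegrable_iff_integrableOn_Icc_of_le ht0]
    have h := integrableOn_Icc_deriv_smul_iff_of_deriv_nonneg (a := 0) (b := (t : ℝ))
      (g := fun u => w (x, u)) hθc.continuousOn (fun τ _ => hθρ τ) (fun τ _ => hρ0 τ) ht0
    rw [hθ0] at h
    exact h.2 (hi.mono_set (Icc_subset_Icc_right hθt.2))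
  have hI2 : ∫ τ in (0 : ℝ)..t, (a' τ * cbump k (γ half x 0)) • EuclideanSpace.single (1 : Fin 2)
      (1 : ℝ) = (a t * cbump k (γ half x 0)) • EuclideanSpace.single (1 : Fin 2) (1 : ℝ) := by
    rw [intervalIntegral.integral_smul_const, intervalIntegral.integral_mul_const,
      intervalIntegral.integral_eq_sub_of_hasDerivAt (fun τ _ => haa' τ)
        (ha'.intervalIntegrable _ _), ha0, sub_zero]
  have hI2int : IntervalIntegrable (fun τ => (a' τ * cbump k (γ half x 0)) •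
      EuclideanSpace.single (1 : Fin 2) (1 : ℝ)) volume 0 t :=
    Continuous.intervalIntegrable (by fun_prop) _ _
  have hI : ∫ τ in (0 : ℝ)..t, pauseVel w θ ρ a' k (γ half) (x, τ) =
      (∫ τ in (0 : ℝ)..θ t, w (x, τ)) +
        (a t * cbump k (γ half x 0)) • EuclideanSpace.single 1 (1 : ℝ) := by
    rw [← hI1, ← hI2, ← intervalIntegral.integral_add hI1int hI2int]
    rfl
  rw [e1, e0, hI, proj_add, add_assoc]

end Pool.Agent.Lib.MP_45c189_gt
end
end

section

/-!
# The energy functional never satisfies the Palais–Smale condition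
-/

open Filter Topology Set MeasureTheory
open scoped Manifold ContDiff ENNReal

noncomputable section

namespace Pool.Agent.Lib.MP_45c189_gt

lemma continuous_proj : Continuous proj := by
  refine continuous_pi fun i => ?_
  exact (AddCircle.continuous_mk' 1).comp (EuclideanSpace.proj (𝕜 := ℝ) i).continuous

lemma half_ne_zero : ((1 / 2 : ℝ) : UnitAddCircle) ≠ 0 := by
  intro h
  obtain ⟨n, hn⟩ := (AddCircle.coe_eq_zero_iff (1 : ℝ)).1 h
  have h1 : (n : ℝ) = 1 / 2 := by simpa using hn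
  have h2 : (2 * n : ℝ) = 1 := by linarith
  have h3 : (2 * n : ℤ) = 1 := by exact_mod_cast h2
  omega

section

variable {s : ℝ} {φ : SDiff s} {F : Type*} [NormedAddCommGroup F] [NormedSpace ℝ F]
  {P : Type*} [TopologicalSpace P] [ChartedSpace F P]

lemma PathManifold.energy_nonneg (Γ : PathManifold s φ F P) (p : P) : 0 ≤ Γ.energy p := by
  unfold PathManifold.energy
  positivity

/-- Inserting a short shear loop at time `1/2` into a curve hardly changes its energy. -/
lemma PathManifold.exists_perturbation (Γ : PathManifold s φ F P) (p : P) (n : ℕ) :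
    ∃ (q : P) (k : ℕ), n ≤ k ∧
      Γ.energy q ≤ 1 / (1 - 4 * (1 / ((n : ℝ) + 8))) * Γ.energy p + 1 / ((n : ℝ) + 1) ∧
      ∀ x, Γ.curve q half x = Γ.curve p half x +
        proj ((1 / 2 * cbump k (Γ.curve p half x 0)) • EuclideanSpace.single 1 (1 : ℝ)) := by
  set δ : ℝ := 1 / ((n : ℝ) + 8) with hδdef
  have hn0 : (0 : ℝ) ≤ n := Nat.cast_nonneg n
  have hδ : 0 < δ := by positivity
  have hδ' : δ < 1 / 4 := by
    rw [hδdef]
    apply one_div_lt_one_div_of_lt <;> linarith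
  obtain ⟨θ, ρ, hθsm, hθmono, hθ0, hθ1, hρc, hθρ, hρ0, hρK, hpause⟩ := exists_pause hδ hδ'
  obtain ⟨a, a', hasm, ha'c, haa', ha12, haout⟩ := exists_amplitude hδ
  have ha0 : a 0 = 0 := (haout 0 (fun h => by linarith [h.1])).1
  have ha1 : a 1 = 0 := (haout 1 (fun h => by linarith [h.2])).1
  have hθa : ∀ t, a t = 0 ∨ θ t = 1 / 2 := by
    intro t
    by_cases ht : t ∈ Icc (1 / 2 - δ) (1 / 2 + δ)
    · exact Or.inr (hpause t ht).1
    · exact Or.inl (haout t ht).1
  have hρa : ∀ t, ρ t = 0 ∨ a' t = 0 := by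
    intro t
    by_cases ht : t ∈ Icc (1 / 2 - δ) (1 / 2 + δ)
    · exact Or.inl (hpause t ht).2
    · exact Or.inr (haout t ht).2
  have hθ12 : θ (1 / 2) = 1 / 2 := (hpause (1 / 2) ⟨by linarith, by linarith⟩).1
  -- choice of `k`
  have hlim : Tendsto (fun k => (∫ t in Icc (0 : ℝ) 1, a' t ^ 2) *
      ∫ x : T2, (cbump k (x 0)) ^ 2) atTop (𝓝 0) := by
    simpa using tendsto_integral_cbump.const_mul (∫ t in Icc (0 : ℝ) 1, a' t ^ 2)
  have hpos : (0 : ℝ) < 2 * (1 / ((n : ℝ) + 1)) := by positivity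
  obtain ⟨k, hk, hkn⟩ := ((hlim.eventually_lt_const hpos).and (eventually_ge_atTop n)).exists
  -- the new curve
  obtain ⟨q₁, hq₁⟩ := Γ.reparam_mem p θ hθsm hθmono hθ0 hθ1
  obtain ⟨q, hq⟩ := Γ.left_mem q₁ (shearPath s a k) (isSmoothPath_shearPath s hasm k)
    (fun x => shearPath_eq_self s k (by simpa using ha0) x)
    (fun x => shearPath_eq_self s k (by simpa using ha1) x)
  have hqcurve : ∀ t t' : unitInterval, (t' : ℝ) = θ t → ∀ x,
      Γ.curve q t x = shearPath s a k t (Γ.curve p t' x) := by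
    intro t t' htt' x
    rw [hq, hq₁ t t' htt' x]
  have hvel := isVelocity_pauseVel s (Γ.isVelocity p) hθmono hθ0 hθ1 hθρ hρ0 ha'c haa' ha0 hθa k
    hqcurve
  set η : T2 → T2 := fun x => Γ.curve p half x with hη
  have hηc : Continuous η := (Γ.curve p half).toHomeo.continuous
  have hηmp : MeasurePreserving η volume volume := (Γ.curve p half).volumePreserving
  have hle := lintegral_pauseVel_le (Γ.velocity p) hθmono hθ0 hθ1 hρc hθρ hρ0 hρK ha'c hρa k hηc
    hηmp
  have hsm := stronglyMeasurable_pauseVel (Γ.velocity p)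
    (continuous_iff_continuousAt.2 fun t => (hθρ t).continuousAt).measurable hρc ha'c k hηc
  have hmem : MemLp (pauseVel (Γ.velocity p) θ ρ a' k η) 2 stMeasure := by
    rw [memLp_two_iff_integrable_sq_norm hsm.aestronglyMeasurable]
    refine ⟨(hsm.norm.pow 2).aestronglyMeasurable, ?_⟩
    rw [hasFiniteIntegral_iff_ofReal (by filter_upwards with z using sq_nonneg _)]
    refine lt_of_le_of_lt hle ?_
    exact ENNReal.add_lt_top.2 ⟨ENNReal.mul_lt_top ENNReal.ofReal_lt_top ENNReal.ofReal_lt_top,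
      ENNReal.ofReal_lt_top⟩
  have huniq : Γ.velocity q = hmem.toLp _ :=
    (Γ.isVelocity q).unique (hvel.congr hmem.coeFn_toLp.symm)
  have hK0 : (0 : ℝ) ≤ 1 / (1 - 4 * δ) := by
    have : 0 < 1 - 4 * δ := by linarith
    positivity
  have hnorm : ‖Γ.velocity q‖ ^ 2 ≤ 1 / (1 - 4 * δ) * ‖Γ.velocity p‖ ^ 2 +
      (∫ t in Icc (0 : ℝ) 1, a' t ^ 2) * ∫ x : T2, (cbump k (x 0)) ^ 2 := by
    have h1 : ENNReal.ofReal (‖Γ.velocity q‖ ^ 2) =
        ∫⁻ z, ENNReal.ofReal (‖pauseVel (Γ.velocity p) θ ρ a' k η z‖ ^ 2) ∂stMeasure := by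
      rw [huniq, norm_toLp_sq]
      exact ofReal_integral_eq_lintegral_ofReal
        ((memLp_two_iff_integrable_sq_norm hsm.aestronglyMeasurable).1 hmem)
        (by filter_upwards with z using sq_nonneg _)
    have hI0 : 0 ≤ (∫ t in Icc (0 : ℝ) 1, a' t ^ 2) * ∫ x : T2, (cbump k (x 0)) ^ 2 :=
      mul_nonneg (integral_nonneg fun t => sq_nonneg _) (integral_nonneg fun x => sq_nonneg _)
    rw [← h1, ← ENNReal.ofReal_mul hK0, ← ENNReal.ofReal_add (by positivity) hI0] at hle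
    exact (ENNReal.ofReal_le_ofReal_iff (by positivity)).1 hle
  refine ⟨q, k, hkn, ?_, ?_⟩
  · unfold PathManifold.energy
    have := hk.le
    calc (1 / 2 : ℝ) * ‖Γ.velocity q‖ ^ 2 ≤ (1 / 2 : ℝ) * (1 / (1 - 4 * δ) * ‖Γ.velocity p‖ ^ 2 +
          (∫ t in Icc (0 : ℝ) 1, a' t ^ 2) * ∫ x : T2, (cbump k (x 0)) ^ 2) := by gcongr
      _ ≤ _ := by linarith
  · intro x
    have h12 : ((half : unitInterval) : ℝ) = 1 / 2 := rfl
    rw [hqcurve half half (by rw [h12, hθ12]) x, shearPath_eq_add, h12, ha12]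

end

/-- **Main theorem.** On a complete Finsler manifold of curves the energy functional does not
satisfy the Palais–Smale condition. -/
theorem not_palaisSmale {s : ℝ} {φ : SDiff s} {F : Type*} [NormedAddCommGroup F] [NormedSpace ℝ F]
    {P : Type*} [EMetricSpace P] [CompleteSpace P] [ChartedSpace F P] [IsManifold 𝓘(ℝ, F) 1 P]
    [Nonempty P] (Γ : PathManifold s φ F P) (ν : TangentNorm F P) (hν : ν.IsContinuous)
    (hd : ∀ p q : P, edist p q ≤ ν.finslerDist p q) : ¬ PalaisSmale ν Γ.energy := by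
  intro hPS
  -- a minimiser exists
  have hbdd : BddBelow (range Γ.energy) := ⟨0, by rintro _ ⟨p, rfl⟩; exact Γ.energy_nonneg p⟩
  set m : ℝ := sInf (range Γ.energy) with hmdef
  have hm : ∀ p, m ≤ Γ.energy p := fun p => csInf_le hbdd ⟨p, rfl⟩
  obtain ⟨p, hpm⟩ : ∃ p, Γ.energy p = m := by
    obtain ⟨v, -, hv, hvr⟩ := exists_seq_tendsto_sInf (range_nonempty Γ.energy) hbdd
    choose u hu using hvr
    have hu' : Tendsto (fun n => Γ.energy (u n)) atTop (𝓝 m) := by
      simp_rw [hu]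
      exact hv
    obtain ⟨p, -, -, -, hp⟩ :=
      exists_limit_of_palaisSmale ν hν hd Γ.energy_contMDiff hm hPS u hu'
    exact ⟨p, hp⟩
  -- a minimising sequence without convergent subsequence
  choose q k hkn hqE hqhalf using fun n => Γ.exists_perturbation p n
  have hqlim : Tendsto (fun n => Γ.energy (q n)) atTop (𝓝 m) := by
    refine tendsto_of_tendsto_of_tendsto_of_le_of_le tendsto_const_nhds ?_ (fun n => hm _) hqE
    have h8 : Tendsto (fun n : ℕ => 1 / ((n : ℝ) + 8)) atTop (𝓝 0) := by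
      have h := tendsto_one_div_add_atTop_nhds_zero_nat (𝕜 := ℝ)
      have h' := (tendsto_add_atTop_iff_nat 7).2 h
      refine h'.congr fun n => ?_
      push_cast
      ring
    have h1 : Tendsto (fun n : ℕ => 1 / (1 - 4 * (1 / ((n : ℝ) + 8))) * Γ.energy p +
        1 / ((n : ℝ) + 1)) atTop (𝓝 (1 / (1 - 4 * 0) * Γ.energy p + 0)) := by
      refine Tendsto.add (Tendsto.mul_const _ ?_) tendsto_one_div_add_atTop_nhds_zero_nat
      exact tendsto_const_nhds.div (tendsto_const_nhds.sub (h8.const_mul 4)) (by norm_num)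
    simpa [hpm] using h1
  obtain ⟨p₂, j, hj, hlim, -⟩ :=
    exists_limit_of_palaisSmale ν hν hd Γ.energy_contMDiff hm hPS q hqlim
  have hlimx : ∀ x, Tendsto (fun n => Γ.curve (q (j n)) half x) atTop (𝓝 (Γ.curve p₂ half x)) :=
    fun x => ((Γ.eval_continuous half x).tendsto p₂).comp hlim
  have hkj : Tendsto (fun n => k (j n)) atTop atTop :=
    tendsto_atTop_mono (fun n => (hj.id_le n).trans (hkn (j n))) tendsto_id
  -- the limit agrees with `p` at time `1/2` almost everywhere, hence everywhere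
  have hae : (fun x => Γ.curve p₂ half x) =ᵐ[volume] fun x => Γ.curve p half x := by
    have h0 : ∀ᵐ x : T2, Γ.curve p half x 0 ≠ 0 :=
      (Γ.curve p half).volumePreserving.quasiMeasurePreserving.ae ae_ne_zero
    filter_upwards [h0] with x hx
    refine tendsto_nhds_unique (hlimx x) ?_
    simp_rw [hqhalf]
    have h1 : Tendsto (fun n => (1 / 2 * cbump (k (j n)) (Γ.curve p half x 0)) •
        EuclideanSpace.single (1 : Fin 2) (1 : ℝ)) atTop
        (𝓝 ((1 / 2 * (0 : ℝ)) • EuclideanSpace.single (1 : Fin 2) (1 : ℝ))) :=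
      (((tendsto_cbump hx).comp hkj).const_mul (1 / 2)).smul_const _
    have h2 := ((continuous_proj.tendsto _).comp h1).const_add (Γ.curve p half x)
    simpa using h2
  have heq : (fun x => Γ.curve p₂ half x) = fun x => Γ.curve p half x :=
    (Continuous.ae_eq_iff_eq volume (Γ.curve p₂ half).toHomeo.continuous
      (Γ.curve p half).toHomeo.continuous).1 hae
  -- but not at the particle which is mapped to `0`
  set x₀ : T2 := (Γ.curve p half).toHomeo.symm 0 with hx₀
  have hx₀' : Γ.curve p half x₀ = 0 := (Γ.curve p half).toHomeo.apply_symm_apply 0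
  have hconst : ∀ n, Γ.curve (q (j n)) half x₀ =
      proj ((1 / 2 : ℝ) • EuclideanSpace.single 1 (1 : ℝ)) := by
    intro n
    rw [hqhalf, hx₀', zero_add, Pi.zero_apply, cbump_zero, mul_one]
  have h1 : Γ.curve p₂ half x₀ = proj ((1 / 2 : ℝ) • EuclideanSpace.single 1 (1 : ℝ)) := by
    refine tendsto_nhds_unique (hlimx x₀) ?_
    simp_rw [hconst]
    exact tendsto_const_nhds
  have h2 : Γ.curve p₂ half x₀ = 0 := by
    rw [← hx₀']
    exact congr_fun heq x₀
  rw [h2] at h1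
  have h3 := congr_fun h1 1
  simp only [proj, Pi.zero_apply, PiLp.smul_apply, smul_eq_mul] at h3
  apply half_ne_zero
  rw [h3]
  simp

end Pool.Agent.Lib.MP_45c189_gt
end
end
end
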