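import Pool.Agent.Lib.MP_45c189_gt.Defs

/-!
# Path spaces on which the velocity is a `C¹` map
-/

open Filter Topology Set MeasureTheory
open scoped Manifold ContDiff ENNReal

noncomputable section

namespace Pool.Agent.Lib.MP_45c189_gt

section

variable {F : Type*} [NormedAddCommGroup F] [NormedSpace ℝ F]
  {P : Type*} [TopologicalSpace P] [ChartedSpace F P]
  {V : Type*} [NormedAddCommGroup V] [NormedSpace ℝ V]

/-- The map `f` from the manifold `P` (modelled on `F`) to the normed space `V` is `C¹`. -/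
def IsC1 (f : P → V) : Prop := ContMDiff 𝓘(ℝ, F) 𝓘(ℝ, V) 1 f

/-- The derivative `Df_p(v)` of a map from the manifold `P` to the normed space `V`. -/
def derivAt (f : P → V) (p : P) (v : TangentSpace 𝓘(ℝ, F) p) : V :=
  mfderiv 𝓘(ℝ, F) 𝓘(ℝ, V) f p v

end

/-- A *path space*: a manifold `P` (modelled on the normed space `F`) whose points are curves in
`𝒟^s_μ(T²)` from the identity to `φ`, containing all the smooth ones, such that the velocity
`γ ↦ γ̇ ∈ L²(T² × [0,1]; ℝ²)` is a `C¹` map on `P`. No relation between the topology of `P` and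
the convergence of the curves is assumed. -/
structure PathSpace (s : ℝ) (φ : SDiff s)
    (F : Type*) [NormedAddCommGroup F] [NormedSpace ℝ F]
    (P : Type*) [TopologicalSpace P] [ChartedSpace F P] where
  /-- the curve `t ↦ γ(t)` represented by the point `p` -/
  curve : P → unitInterval → SDiff s
  curve_zero : ∀ p x, curve p 0 x = x
  curve_one : ∀ p x, curve p 1 x = φ x
  /-- the velocity `γ̇` of the curve represented by `p` -/
  velocity : P → L2
  isVelocity : ∀ p, IsVelocity (fun t => curve p t) (velocity p)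
  velocity_isC1 : IsC1 (F := F) velocity
  smooth_mem : ∀ γ : unitInterval → SDiff s, IsSmoothPath γ → (∀ x, γ 0 x = x) →
    (∀ x, γ 1 x = φ x) → ∃ p : P, ∀ t x, curve p t x = γ t x

section

variable {s : ℝ} {φ : SDiff s} {F : Type*} [NormedAddCommGroup F] [NormedSpace ℝ F]
  {P : Type*} [TopologicalSpace P] [ChartedSpace F P]

/-- The kinetic energy `E(γ) = ½ ∫₀¹ ‖γ̇(t)‖²_{L²} dt` as a function on the path space. -/
def PathSpace.energy (Γ : PathSpace s φ F P) (p : P) : ℝ := (1 / 2 : ℝ) * ‖Γ.velocity p‖ ^ 2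

/-- The derivative of the velocity map at `p` in the direction `v`: the variation `∇ₜX`, an
element of `L²(T² × [0,1]; ℝ²)`, where `X` is the variation field of `v`. -/
def PathSpace.dVelocity (Γ : PathSpace s φ F P) (p : P) (v : TangentSpace 𝓘(ℝ, F) p) : L2 :=
  derivAt Γ.velocity p v

end

/-- The square of the norm of `w` in `L²([0,1]; H^σ(T²; ℝ²))`. -/
def hsNormSq (σ : ℝ) (w : T2 × ℝ → R2) : ℝ≥0∞ :=
  ∫⁻ t in Icc (0 : ℝ) 1, ∑' n : Fin 2 → ℤ, ∑ i : Fin 2,
    ENNReal.ofReal ((1 + ∑ j, (n j : ℝ) ^ 2) ^ σ *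
      ‖UnitAddTorus.mFourierCoeff (fun x : T2 => ((w (x, t) i : ℝ) : ℂ)) n‖ ^ 2)

/-- The Eulerian form `(x, t) ↦ w(γ(t)⁻¹(x), t)` of a field `w(x, t)` along the curve `γ`. -/
def eulerian {s : ℝ} (γ : unitInterval → SDiff s) (w : T2 × ℝ → R2) (z : T2 × ℝ) : R2 :=
  w ((γ (projIcc 0 1 zero_le_one z.2)).toHomeo.symm z.1, z.2)

end Pool.Agent.Lib.MP_45c189_gt
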