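import Pool.Agent.Lib.MP_45c189_gt.Weak

section

/-!
# Oscillating shear loops
-/

open Filter Topology Set MeasureTheory UnitAddTorus
open scoped Manifold ContDiff ENNReal

noncomputable section

namespace Pool.Agent.Lib.MP_45c189_gt

/-- `sin (2π k y)` as a function on the circle. -/
def csin (k : ℕ) (y : UnitAddCircle) : ℝ := (fourier (k : ℤ) y : ℂ).im

lemma continuous_csin (k : ℕ) : Continuous (csin k) :=
  Complex.continuous_im.comp (map_continuous (fourier (k : ℤ)))

lemma csin_coe (k : ℕ) (y : ℝ) : csin k (y : UnitAddCircle) = Real.sin (2 * Real.pi * k * y) := by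
  unfold csin
  rw [fourier_coe_apply]
  have : (2 * Real.pi * Complex.I * ((k : ℤ) : ℂ) * (y : ℂ) / ((1 : ℝ) : ℂ)) =
      ((2 * Real.pi * k * y : ℝ) : ℂ) * Complex.I := by
    push_cast
    ring
  rw [this, Complex.exp_ofReal_mul_I_im]

lemma contDiff_sin (A : ℝ) (k : ℕ) :
    ContDiff ℝ ∞ (fun y : ℝ => A * Real.sin (2 * Real.pi * k * y)) :=
  contDiff_const.mul ((contDiff_const.mul contDiff_id).sin)

lemma periodic_sin (A : ℝ) (k : ℕ) :
    Function.Periodic (fun y : ℝ => A * Real.sin (2 * Real.pi * k * y)) 1 := by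
  intro y
  have : 2 * Real.pi * k * (y + 1) = 2 * Real.pi * k * y + k * (2 * Real.pi) := by ring
  simp only [this, Real.sin_add_nat_mul_two_pi]

/-- The curve of shears `γ(t)(x₀, x₁) = (x₀, x₁ + a(t) sin(2πk x₀))`. -/
def oscPath (s : ℝ) (a : ℝ → ℝ) (k : ℕ) (t : unitInterval) : SDiff s :=
  shear s (fun y => a t * Real.sin (2 * Real.pi * k * y)) (contDiff_sin _ k) (periodic_sin _ k)

lemma oscPath_apply (s : ℝ) (a : ℝ → ℝ) (k : ℕ) (t : unitInterval) (x : T2) :
    oscPath s a k t x = ![x 0, x 1 + ((a t * csin k (x 0) : ℝ) : UnitAddCircle)] := by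
  unfold oscPath
  rw [shear_apply]
  obtain ⟨z, hz⟩ := QuotientAddGroup.mk_surjective (x 0)
  have hz' : ((z : ℝ) : UnitAddCircle) = x 0 := hz
  rw [← hz', circleFun_coe, csin_coe]

lemma oscPath_eq_add (s : ℝ) (a : ℝ → ℝ) (k : ℕ) (t : unitInterval) (x : T2) :
    oscPath s a k t x = x + proj ((a t * csin k (x 0)) • EuclideanSpace.single 1 (1 : ℝ)) := by
  rw [oscPath_apply]
  ext i
  fin_cases i <;> simp [proj]

lemma oscPath_eq_self (s : ℝ) {a : ℝ → ℝ} (k : ℕ) {t : unitInterval} (ht : a t = 0) (x : T2) :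
    oscPath s a k t x = x := by
  rw [oscPath_eq_add, ht, zero_mul, zero_smul, proj_zero, add_zero]

lemma isSmoothPath_oscPath (s : ℝ) {a : ℝ → ℝ} (ha : ContDiff ℝ ∞ a) (k : ℕ) :
    IsSmoothPath (oscPath s a k) := by
  refine ⟨fun z => !₂[z.2 0, z.2 1 + a z.1 * Real.sin (2 * Real.pi * k * z.2 0)], ?_, ?_⟩
  · have h0 : ContDiff ℝ ∞ (fun z : ℝ × R2 => z.2 0) :=
      (EuclideanSpace.proj (𝕜 := ℝ) (0 : Fin 2)).contDiff.comp contDiff_snd
    have h1 : ContDiff ℝ ∞ (fun z : ℝ × R2 => z.2 1) :=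
      (EuclideanSpace.proj (𝕜 := ℝ) (1 : Fin 2)).contDiff.comp contDiff_snd
    have ha : ContDiff ℝ ∞ (fun z : ℝ × R2 => a z.1) := ha.comp contDiff_fst
    have hb : ContDiff ℝ ∞ (fun z : ℝ × R2 => Real.sin (2 * Real.pi * k * z.2 0)) :=
      (contDiff_const.mul h0).sin
    rw [contDiff_euclidean]
    intro i
    fin_cases i
    · exact h0
    · exact h1.add (ha.mul hb)
  · intro t x
    rw [oscPath_apply]
    ext i
    fin_cases i
    · simp [proj]
    · have : csin k ((x 0 : ℝ) : UnitAddCircle) = Real.sin (2 * Real.pi * k * x 0) := csin_coe k (x 0)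
      simp [proj, this]

lemma volume_T2 : (volume : Measure T2) = Measure.pi fun _ : Fin 2 => AddCircle.haarAddCircle := by
  rw [volume_pi]
  congr 1
  funext i
  exact volume_unitAddCircle

lemma mFourierCoeff_eq (f : T2 → ℂ) (n : Fin 2 → ℤ) :
    mFourierCoeff f n = ∫ x : T2, mFourier (-n) x * f x := by
  rw [volume_T2]
  rfl

lemma integral_fourier_zero {k : ℤ} (hk : k ≠ 0) : ∫ x : T2, (fourier k (x 0) : ℂ) = 0 := by
  have h1 := mFourierCoeff_prod (fun y => (fourier k y : ℂ)) 0 0
  have h2 : fourierCoeff (fun y : UnitAddCircle => (fourier k y : ℂ)) ((0 : Fin 2 → ℤ) 0) = 0 := by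
    have := congr_fun (fourierCoeff_fourier (T := 1) k) 0
    rw [Pi.single_apply, if_neg (fun h => hk h.symm)] at this
    exact this
  rw [h2, zero_mul, mFourierCoeff_eq] at h1
  rw [← h1]
  apply integral_congr_ae
  filter_upwards with x
  rw [neg_zero, mFourier_zero]
  simp

/-- The mean square of `sin (2πk x₀)` does not depend on `k ≥ 1`. -/
lemma integral_csin_sq {k : ℕ} (hk : 0 < k) : ∫ x : T2, csin k (x 0) ^ 2 = 1 / 2 := by
  have hpt : ∀ y : UnitAddCircle, csin k y ^ 2 = 1 / 2 - (fourier (2 * k : ℤ) y : ℂ).re / 2 := by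
    intro y
    obtain ⟨z, hz⟩ := QuotientAddGroup.mk_surjective y
    have hz' : ((z : ℝ) : UnitAddCircle) = y := hz
    rw [← hz', csin_coe, fourier_coe_apply]
    have : (2 * Real.pi * Complex.I * ((2 * k : ℤ) : ℂ) * (z : ℂ) / ((1 : ℝ) : ℂ)) =
        ((2 * (2 * Real.pi * k * z) : ℝ) : ℂ) * Complex.I := by
      push_cast
      ring
    rw [this, Complex.exp_ofReal_mul_I_re, Real.cos_two_mul, Real.cos_sq']
    ring
  have h0 : ∫ x : T2, (fourier (2 * k : ℤ) (x 0) : ℂ).re = 0 := by
    have h1 := integral_fourier_zero (k := 2 * k) (by omega)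
    have hint : Integrable (fun x : T2 => (fourier (2 * k : ℤ) (x 0) : ℂ)) volume :=
      ((map_continuous (fourier (2 * k : ℤ))).comp
        (continuous_apply (0 : Fin 2))).integrable_of_hasCompactSupport
          (HasCompactSupport.of_compactSpace _)
    have h2 := integral_re hint
    rw [h1] at h2
    simpa using h2
  simp_rw [hpt]
  have hint : Integrable (fun x : T2 => (fourier (2 * k : ℤ) (x 0) : ℂ).re / 2) volume :=
    ((Complex.continuous_re.comp ((map_continuous (fourier (2 * k : ℤ))).comp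
      (continuous_apply (0 : Fin 2)))).div_const 2).integrable_of_hasCompactSupport
        (HasCompactSupport.of_compactSpace _)
  rw [integral_sub (integrable_const _) hint, integral_div, integral_div, h0]
  simp

/-- The mean of `exp (2πi A sin (2πy))` has modulus less than one, for `A ≠ 0`. -/
lemma norm_mean_lt_one {A : ℝ} (hA : A ≠ 0) :
    ‖∫ y : UnitAddCircle, (fourier 1 ((A * csin 1 y : ℝ) : UnitAddCircle) : ℂ)‖ < 1 := by
  set u : UnitAddCircle → ℂ := fun y => (fourier 1 ((A * csin 1 y : ℝ) : UnitAddCircle) : ℂ) with hu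
  have hucont : Continuous u :=
    (map_continuous (fourier 1)).comp ((AddCircle.continuous_mk' 1).comp
      (continuous_const.mul (continuous_csin 1)))
  have hunorm : ∀ y, ‖u y‖ = 1 := fun y => by
    simp only [hu, fourier_apply]
    exact Circle.norm_coe _
  have huint : Integrable u volume :=
    hucont.integrable_of_hasCompactSupport (HasCompactSupport.of_compactSpace _)
  set c : ℂ := ∫ y, u y with hc
  have hle : ‖c‖ ≤ 1 := by
    calc ‖c‖ ≤ ∫ y, ‖u y‖ := norm_integral_le_integral_norm _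
      _ = 1 := by simp [hunorm]
  refine lt_of_le_of_ne hle fun hone => ?_
  -- if `|c| = 1` then `u` is constant
  have hre : ∫ y, (1 - (starRingEnd ℂ c * u y).re) = 0 := by
    have h1 : Integrable (fun y => starRingEnd ℂ c * u y) volume := huint.const_mul _
    have h2 : ∫ y, (starRingEnd ℂ c * u y).re = 1 := by
      have h3 := integral_re h1
      have h4 : ∫ y, starRingEnd ℂ c * u y = starRingEnd ℂ c * c := integral_const_mul _ _
      have h5 : (starRingEnd ℂ c * c) = 1 := by
        rw [← Complex.normSq_eq_conj_mul_self, Complex.normSq_eq_norm_sq, hone]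
        simp
      rw [h4, h5] at h3
      simpa using h3
    have h1re : Integrable (fun y => (starRingEnd ℂ c * u y).re) volume := h1.re
    rw [integral_sub (integrable_const _) h1re, h2]
    simp
  have hnn : ∀ y, 0 ≤ 1 - (starRingEnd ℂ c * u y).re := by
    intro y
    have h1 : (starRingEnd ℂ c * u y).re ≤ ‖starRingEnd ℂ c * u y‖ := Complex.re_le_norm _
    rw [norm_mul, hunorm, mul_one, RCLike.norm_conj, hone] at h1
    linarith
  have hcont2 : Continuous fun y => 1 - (starRingEnd ℂ c * u y).re :=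
    continuous_const.sub (Complex.continuous_re.comp (continuous_const.mul hucont))
  have hzero : (fun y => 1 - (starRingEnd ℂ c * u y).re) =ᵐ[volume] fun _ => 0 := by
    rw [integral_eq_zero_iff_of_nonneg hnn (hcont2.integrable_of_hasCompactSupport
      (HasCompactSupport.of_compactSpace _))] at hre
    exact hre
  have hall : (fun y => 1 - (starRingEnd ℂ c * u y).re) = fun _ => 0 :=
    (Continuous.ae_eq_iff_eq volume hcont2 continuous_const).1 hzero
  have hconst : ∀ y, u y = c := by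
    intro y
    have h1 : 1 - (starRingEnd ℂ c * u y).re = 0 := congr_fun hall y
    have h2 : (starRingEnd ℂ c * u y).re = 1 := by linarith
    have h3 : ‖starRingEnd ℂ c * u y‖ = 1 := by
      rw [norm_mul, hunorm, mul_one, RCLike.norm_conj, hone]
    have h4 : starRingEnd ℂ c * u y = 1 := by
      have h5 := Complex.sq_norm (starRingEnd ℂ c * u y)
      rw [h3, Complex.normSq_apply, h2] at h5
      apply Complex.ext
      · rw [h2]; simp
      · have : (starRingEnd ℂ c * u y).im * (starRingEnd ℂ c * u y).im = 0 := by linarith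
        rw [mul_self_eq_zero.1 this]; simp
    have h6 : c * (starRingEnd ℂ c * u y) = c := by rw [h4, mul_one]
    rw [← mul_assoc, Complex.mul_conj, Complex.normSq_eq_norm_sq, hone] at h6
    simpa using h6
  -- evaluate at two points
  obtain ⟨z, hz0, hz1⟩ : ∃ z : ℝ, 0 < |A * Real.sin z| ∧ |A * Real.sin z| < 1 := by
    have hcont : Tendsto (fun z => |A * Real.sin z|) (𝓝[>] 0) (𝓝 0) := by
      have : Continuous fun z => |A * Real.sin z| := by fun_prop
      have h := this.tendsto 0
      simp only [Real.sin_zero, mul_zero, abs_zero] at h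
      exact h.mono_left nhdsWithin_le_nhds
    have h1 := hcont.eventually_lt_const (zero_lt_one (α := ℝ))
    have h2 : ∀ᶠ z in 𝓝[>] (0 : ℝ), z < Real.pi :=
      nhdsWithin_le_nhds (Iio_mem_nhds Real.pi_pos)
    obtain ⟨z, ⟨hz1, hz2⟩, hz3⟩ := ((h1.and h2).and self_mem_nhdsWithin).exists
    refine ⟨z, abs_pos.2 (mul_ne_zero hA (Real.sin_pos_of_pos_of_lt_pi hz3 hz2).ne'), hz1⟩
  have e1 := hconst ((z / (2 * Real.pi) : ℝ) : UnitAddCircle)
  have e0 := hconst ((0 : ℝ) : UnitAddCircle)
  rw [← e0] at e1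
  simp only [hu, csin_coe] at e1
  have hpi : 2 * Real.pi * ((1 : ℕ) : ℝ) * (z / (2 * Real.pi)) = z := by
    have := Real.pi_pos
    push_cast
    field_simp
  rw [hpi] at e1
  have e2 : ((A * Real.sin z : ℝ) : UnitAddCircle) = ((0 : ℝ) : UnitAddCircle) := by
    apply AddCircle.injective_toCircle one_ne_zero
    have h1 := e1
    simp only [mul_zero, Real.sin_zero, fourier_one] at h1
    exact Subtype.ext h1
  have e3 : ((A * Real.sin z : ℝ) : UnitAddCircle) = 0 := e2
  obtain ⟨n, hn⟩ := (AddCircle.coe_eq_zero_iff (1 : ℝ)).1 e3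
  have hn' : (n : ℝ) = A * Real.sin z := by simpa using hn
  rw [← hn'] at hz0 hz1
  have h1 : 0 < |n| := by exact_mod_cast hz0
  have h2 : |n| < 1 := by exact_mod_cast hz1
  omega

end Pool.Agent.Lib.MP_45c189_gt
end
end

section

/-!
# Oscillating shear loops do not converge in measure
-/

open Filter Topology Set MeasureTheory UnitAddTorus
open scoped Manifold ContDiff ENNReal

noncomputable section

namespace Pool.Agent.Lib.MP_45c189_gt

lemma csin_eq_nsmul (k : ℕ) (y : UnitAddCircle) : csin k y = csin 1 (k • y) := by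
  unfold csin
  simp [fourier_apply]

/-- Fourier coefficients of a function of period `1/k`. -/
lemma fourierCoeff_nsmul_eq_zero {G : UnitAddCircle → ℂ} {k : ℕ} (hk : 0 < k)
    (hG : ∀ y, G (y + ((1 / k : ℝ) : UnitAddCircle)) = G y) {m : ℤ} (hm0 : m ≠ 0)
    (hmk : |m| < k) : fourierCoeff G m = 0 := by
  set τ : UnitAddCircle := ((1 / k : ℝ) : UnitAddCircle) with hτ
  have hk' : (k : ℝ) ≠ 0 := by positivity
  have h1 : fourierCoeff G m = (fourier (-m) τ : ℂ) * fourierCoeff G m := by
    unfold fourierCoeff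
    calc ∫ y, (fourier (-m) y : ℂ) • G y ∂AddCircle.haarAddCircle
        = ∫ y, (fourier (-m) (y + τ) : ℂ) • G (y + τ) ∂AddCircle.haarAddCircle :=
          (integral_add_right_eq_self (fun y => (fourier (-m) y : ℂ) • G y) τ).symm
      _ = ∫ y, (fourier (-m) τ : ℂ) • ((fourier (-m) y : ℂ) • G y) ∂AddCircle.haarAddCircle := by
          congr 1
          funext y
          rw [hG]
          have : (fourier (-m) (y + τ) : ℂ) = fourier (-m) y * fourier (-m) τ := by
            simp [fourier_apply, smul_add, AddCircle.toCircle_add]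
          rw [this]
          simp only [smul_eq_mul]
          ring
      _ = _ := integral_smul _ _
  have h2 : (fourier (-m) τ : ℂ) ≠ 1 := by
    intro h
    rw [hτ, fourier_coe_apply, Complex.exp_eq_one_iff] at h
    obtain ⟨n, hn⟩ := h
    have hpi : (2 * Real.pi * Complex.I : ℂ) ≠ 0 := Complex.two_pi_I_ne_zero
    have h3 : (-(m : ℂ)) * (1 / (k : ℂ)) = n := by
      have h4 : (2 * Real.pi * Complex.I : ℂ) * ((-(m : ℂ)) * (1 / (k : ℂ))) =
          (2 * Real.pi * Complex.I : ℂ) * n := by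
        rw [← mul_comm (n : ℂ)]
        rw [← hn]
        push_cast
        ring
      exact mul_left_cancel₀ hpi h4
    have hkc : (k : ℂ) ≠ 0 := by exact_mod_cast hk.ne'
    have h5 : (-(m : ℂ)) = n * k := by
      field_simp at h3
      rw [h3]
      ring
    have h6 : -m = n * k := by exact_mod_cast h5
    have h7 : |m| = |n| * k := by
      rw [← abs_neg, h6, abs_mul]
      simp
    have h8 : n ≠ 0 := by
      rintro rfl
      apply hm0
      have : -m = 0 := by rw [h6]; simp
      omega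
    have h9 : 1 ≤ |n| := Int.one_le_abs h8
    have h10 : (k : ℤ) ≤ |n| * k := by nlinarith
    omega
  have h3 : (1 - (fourier (-m) τ : ℂ)) * fourierCoeff G m = 0 := by
    rw [sub_mul, one_mul, ← h1, sub_self]
  rcases mul_eq_zero.1 h3 with h | h
  · exact absurd (sub_eq_zero.1 h).symm h2
  · exact h

lemma integral_comp_nsmul {U : UnitAddCircle → ℂ} (hU : Continuous U) {k : ℕ} (hk : 1 < k) :
    ∫ y : UnitAddCircle, U (k • y) = ∫ y : UnitAddCircle, U y := by
  have h := (AddCircle.ergodic_nsmul (T := 1) hk).toMeasurePreserving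
  conv_rhs => rw [← h.map_eq]
  rw [integral_map h.measurable.aemeasurable]
  rw [h.map_eq]
  exact hU.aestronglyMeasurable


lemma nsmul_one_div {k : ℕ} (hk : 0 < k) : k • (((1 / k : ℝ)) : UnitAddCircle) = 0 := by
  have hk' : (k : ℝ) ≠ 0 := by positivity
  have h1 : k • (((1 / k : ℝ)) : UnitAddCircle) = ((k • (1 / k : ℝ) : ℝ) : UnitAddCircle) :=
    (QuotientAddGroup.mk_nsmul _ _ _).symm
  rw [h1, nsmul_eq_mul, mul_one_div_cancel hk']
  exact AddCircle.coe_period (1 : ℝ)

/-- The shears `(x₀, x₁) ↦ (x₀, x₁ + A sin(2πk x₀))`, `k → ∞`, have no limit in measure. -/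
lemma not_tendstoInMeasure {A : ℝ} (hA : A ≠ 0) {n : ℕ → ℕ} (hn : Tendsto n atTop atTop)
    (f : T2 → T2) : ¬ TendstoInMeasure volume (fun k (x : T2) =>
      x + proj ((A * csin (n k) (x 0)) • EuclideanSpace.single 1 (1 : ℝ))) atTop f := by
  intro hconv
  obtain ⟨ns, hns, hae⟩ := hconv.exists_seq_tendsto_ae
  set N : ℕ → ℕ := fun i => n (ns i) with hN
  have hNlim : Tendsto N atTop atTop := hn.comp hns.tendsto_atTop
  set U : UnitAddCircle → ℂ := fun y => (fourier 1 ((A * csin 1 y : ℝ) : UnitAddCircle) : ℂ) with hU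
  have hUcont : Continuous U :=
    (map_continuous (fourier 1)).comp ((AddCircle.continuous_mk' 1).comp
      (continuous_const.mul (continuous_csin 1)))
  have hnorm1 : ∀ (k : ℤ) (y : UnitAddCircle), ‖(fourier k y : ℂ)‖ = 1 := fun k y => by
    rw [fourier_apply]
    exact Circle.norm_coe _
  set g : ℕ → T2 → ℂ := fun i x => U (N i • x 0) with hg
  set G : T2 → ℂ := fun x => starRingEnd ℂ (fourier 1 (x 1) : ℂ) * (fourier 1 (f x 1) : ℂ) with hG
  have hgcont : ∀ i, Continuous (g i) := fun i =>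
    hUcont.comp ((continuous_const_smul (N i)).comp (continuous_apply (0 : Fin 2)))
  have hgnorm : ∀ i x, ‖g i x‖ = 1 := fun i x => hnorm1 1 _
  have hGnorm : ∀ x, ‖G x‖ = 1 := fun x => by
    simp only [hG, norm_mul, RCLike.norm_conj, hnorm1, mul_one]
  have hlim : ∀ᵐ x : T2, Tendsto (fun i => g i x) atTop (𝓝 (G x)) := by
    filter_upwards [hae] with x hx
    have h1 : Tendsto (fun i => (x + proj ((A * csin (N i) (x 0)) •
        EuclideanSpace.single 1 (1 : ℝ))) 1) atTop (𝓝 (f x 1)) :=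
      ((continuous_apply (1 : Fin 2)).tendsto _).comp hx
    have h2 := (((map_continuous (fourier (T := 1) 1)).tendsto _).comp h1).const_mul
      (starRingEnd ℂ (fourier 1 (x 1) : ℂ))
    refine h2.congr fun i => ?_
    have h3 : (x + proj ((A * csin (N i) (x 0)) • EuclideanSpace.single 1 (1 : ℝ))) 1 =
        x 1 + ((A * csin (N i) (x 0) : ℝ) : UnitAddCircle) := by
      simp [proj]
    simp only [Function.comp_apply, h3, fourier_one_add, hg, hU]
    rw [← mul_assoc, mul_comm (starRingEnd ℂ _), Complex.mul_conj, Complex.normSq_eq_norm_sq,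
      hnorm1, csin_eq_nsmul (N i)]
    simp
  have hGmeas : AEStronglyMeasurable G (volume : Measure T2) :=
    aestronglyMeasurable_of_tendsto_ae atTop (fun i => (hgcont i).aestronglyMeasurable) hlim
  -- the Fourier coefficients converge
  have hcoef : ∀ m : Fin 2 → ℤ, Tendsto (fun i => mFourierCoeff (g i) m) atTop
      (𝓝 (mFourierCoeff G m)) := by
    intro m
    simp_rw [mFourierCoeff_eq]
    have hmc : Continuous fun x : T2 => (mFourier (-m) x : ℂ) := map_continuous _
    have hmn : ∀ x : T2, ‖(mFourier (-m) x : ℂ)‖ = 1 := by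
      intro x
      simp only [mFourier, ContinuousMap.coe_mk, Fin.prod_univ_two, norm_mul, hnorm1, mul_one]
    refine tendsto_integral_of_dominated_convergence (fun _ => (1 : ℝ))
      (fun i => (hmc.mul (hgcont i)).aestronglyMeasurable) (integrable_const _) ?_ ?_
    · intro i
      filter_upwards with x
      rw [norm_mul, hmn, hgnorm, mul_one]
    · filter_upwards [hlim] with x hx
      exact hx.const_mul _
  have hgprod : ∀ i m, mFourierCoeff (g i) m =
      fourierCoeff (fun y => U (N i • y)) (m 0) * (if m 1 = 0 then 1 else 0) := by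
    intro i m
    have := mFourierCoeff_prod (fun y => U (N i • y)) 0 m
    rw [← this]
    congr 1
    funext x
    simp [hg]
  set c : ℂ := ∫ y : UnitAddCircle, U y with hc
  have hcoefG : ∀ m : Fin 2 → ℤ, mFourierCoeff G m = if m = 0 then c else 0 := by
    intro m
    refine tendsto_nhds_unique (hcoef m) ?_
    simp_rw [hgprod]
    by_cases hm : m = 0
    · rw [if_pos hm]
      refine Tendsto.congr' ?_ tendsto_const_nhds
      filter_upwards [hNlim.eventually_gt_atTop 1] with i hi
      subst hm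
      simp only [Pi.zero_apply, if_true, mul_one]
      rw [hc, ← integral_comp_nsmul hUcont hi]
      unfold fourierCoeff
      rw [volume_unitAddCircle]
      simp
    · rw [if_neg hm]
      by_cases hm1 : m 1 = 0
      · have hm0 : m 0 ≠ 0 := by
          intro h
          apply hm
          ext i
          fin_cases i
          · exact h
          · exact hm1
        refine Tendsto.congr' ?_ tendsto_const_nhds
        filter_upwards [hNlim.eventually_gt_atTop (m 0).natAbs] with i hi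
        rw [fourierCoeff_nsmul_eq_zero (k := N i) (by omega) ?_ hm0
          (by rw [Int.abs_eq_natAbs]; exact_mod_cast hi), zero_mul]
        intro y
        rw [smul_add, nsmul_one_div (by omega), add_zero]
      · simp [hm1]
  -- Parseval
  have hGmem : MemLp G 2 (volume : Measure T2) := by
    refine MemLp.of_bound hGmeas 1 ?_
    filter_upwards with x
    exact (hGnorm x).le
  rw [volume_T2] at hGmem
  have hP := hasSum_sq_mFourierCoeff (d := Fin 2) (hGmem.toLp G)
  have hP2 : ∀ m : Fin 2 → ℤ, mFourierCoeff (hGmem.toLp G) m = mFourierCoeff G m := by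
    intro m
    exact integral_congr_ae (ae_eq_rfl.mul hGmem.coeFn_toLp)
  have hP3 : ∫ x, ‖(hGmem.toLp G : T2 → ℂ) x‖ ^ 2 ∂(Measure.pi fun _ : Fin 2 =>
      AddCircle.haarAddCircle) = 1 := by
    have : ∫ x, ‖(hGmem.toLp G : T2 → ℂ) x‖ ^ 2 ∂(Measure.pi fun _ : Fin 2 =>
      (AddCircle.haarAddCircle : Measure UnitAddCircle)) = ∫ x : T2, (1 : ℝ) ∂(Measure.pi fun _ : Fin 2 =>
      (AddCircle.haarAddCircle : Measure UnitAddCircle)) := by
      apply integral_congr_ae
      filter_upwards [hGmem.coeFn_toLp] with x hx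
      rw [hx, hGnorm, one_pow]
    rw [this]
    simp
  have hP4 : HasSum (fun i : Fin 2 → ℤ => ‖mFourierCoeff (hGmem.toLp G) i‖ ^ 2) (‖c‖ ^ 2) := by
    have h1 : (fun i : Fin 2 → ℤ => ‖mFourierCoeff (hGmem.toLp G) i‖ ^ 2) =
        fun i => if i = 0 then ‖c‖ ^ 2 else 0 := by
      funext i
      rw [hP2, hcoefG]
      split_ifs <;> simp
    rw [h1]
    exact hasSum_ite_eq 0 _
  have h1 : ‖c‖ ^ 2 = 1 := (hP4.unique hP).trans hP3
  have h2 := norm_mean_lt_one hA
  have h3 : ‖c‖ < 1 := h2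
  nlinarith [norm_nonneg c]

end Pool.Agent.Lib.MP_45c189_gt
end
end

section

/-!
# Strong norms: failure of the Palais–Smale condition at every positive energy level
-/

open Filter Topology Set MeasureTheory UnitAddTorus
open scoped Manifold ContDiff ENNReal

noncomputable section

namespace Pool.Agent.Lib.MP_45c189_gt

lemma inner_shearVel (ξ : L2) {a' : ℝ → ℝ} {v : UnitAddCircle → ℝ} (ha' : Continuous a')
    (hv : Continuous v) : inner ℝ ((memLp_shearVel ha' hv).toLp _) ξ =
      ∫ t in Icc (0 : ℝ) 1, a' t * ∫ x : T2, v (x 0) * ξ (x, t) 1 := by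
  have h1 : inner ℝ ((memLp_shearVel ha' hv).toLp _) ξ =
      ∫ z, a' z.2 * (v (z.1 0) * ξ z 1) ∂stMeasure := by
    rw [L2.inner_def]
    apply integral_congr_ae
    filter_upwards [(memLp_shearVel ha' hv).coeFn_toLp] with z hz
    rw [hz]
    unfold shearVel
    rw [real_inner_smul_left, EuclideanSpace.inner_single_left]
    simp
    ring
  have hint : Integrable (fun z => a' z.2 * (v (z.1 0) * ξ z 1)) stMeasure := by
    have h2 := L2.integrable_inner (𝕜 := ℝ) ((memLp_shearVel ha' hv).toLp _) ξ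
    refine h2.congr ?_
    filter_upwards [(memLp_shearVel ha' hv).coeFn_toLp] with z hz
    rw [hz]
    unfold shearVel
    rw [real_inner_smul_left, EuclideanSpace.inner_single_left]
    simp
    ring
  rw [h1]
  unfold stMeasure at hint ⊢
  rw [integral_prod_symm _ hint]
  apply integral_congr_ae
  filter_upwards with t
  exact integral_const_mul _ _

/-- The Fourier mode `(k, 0)` of the second component of `w(·, t)`. -/
def mode (k : ℕ) (w : T2 × ℝ → R2) (t : ℝ) : ℂ :=
  mFourierCoeff (fun x : T2 => ((w (x, t) 1 : ℝ) : ℂ)) ![(k : ℤ), 0]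

lemma mode_eq (k : ℕ) (w : T2 × ℝ → R2) (t : ℝ) :
    mode k w t = ∫ x : T2, starRingEnd ℂ (fourier (k : ℤ) (x 0) : ℂ) * ((w (x, t) 1 : ℝ) : ℂ) := by
  unfold mode
  rw [mFourierCoeff_eq]
  apply integral_congr_ae
  filter_upwards with x
  congr 1
  simp [mFourier, Fin.prod_univ_two]

lemma abs_integral_csin_le (k : ℕ) {w : T2 × ℝ → R2} {t : ℝ}
    (hw : Integrable (fun x : T2 => w (x, t) 1) volume) :
    |∫ x : T2, csin k (x 0) * w (x, t) 1| ≤ ‖mode k w t‖ := by
  have hint : Integrable (fun x : T2 =>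
      starRingEnd ℂ (fourier (k : ℤ) (x 0) : ℂ) * ((w (x, t) 1 : ℝ) : ℂ)) volume := by
    have h1 : Integrable (fun x : T2 => ((w (x, t) 1 : ℝ) : ℂ)) volume := hw.ofReal
    refine h1.bdd_mul (c := 1) ?_ ?_
    · exact (Complex.continuous_conj.comp ((map_continuous (fourier (k : ℤ))).comp
        (continuous_apply (0 : Fin 2)))).aestronglyMeasurable
    · filter_upwards with x
      rw [RCLike.norm_conj, fourier_apply]
      exact (Circle.norm_coe _).le
  have h1 : (mode k w t).im = - ∫ x : T2, csin k (x 0) * w (x, t) 1 := by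
    rw [mode_eq]
    have h2 := integral_im hint
    rw [← integral_neg]
    refine h2.symm.trans ?_
    apply integral_congr_ae
    filter_upwards with x
    simp [csin]
  have h3 := Complex.abs_im_le_norm (mode k w t)
  rw [h1, abs_neg] at h3
  exact h3

lemma measurable_mode (k : ℕ) (ξ : L2) : Measurable (mode k ξ) := by
  have h1 : StronglyMeasurable fun z : T2 × ℝ =>
      starRingEnd ℂ (fourier (k : ℤ) (z.1 0) : ℂ) * ((ξ z 1 : ℝ) : ℂ) := by
    have h2 : StronglyMeasurable fun z : T2 × ℝ => ξ z := Lp.stronglyMeasurable ξ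
    have h3 : StronglyMeasurable fun z : T2 × ℝ => ((ξ z 1 : ℝ) : ℂ) :=
      Complex.continuous_ofReal.comp_stronglyMeasurable
        ((EuclideanSpace.proj (𝕜 := ℝ) (1 : Fin 2)).continuous.comp_stronglyMeasurable h2)
    have h4 : Continuous fun z : T2 × ℝ => starRingEnd ℂ (fourier (k : ℤ) (z.1 0) : ℂ) :=
      Complex.continuous_conj.comp ((map_continuous (fourier (k : ℤ))).comp
        ((continuous_apply (0 : Fin 2)).comp continuous_fst))
    exact h4.stronglyMeasurable.mul h3
  have h5 : StronglyMeasurable fun t : ℝ => ∫ x : T2,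
      starRingEnd ℂ (fourier (k : ℤ) (x 0) : ℂ) * ((ξ (x, t) 1 : ℝ) : ℂ) :=
    h1.integral_prod_left'
  have h6 : mode k ξ = fun t : ℝ => ∫ x : T2,
      starRingEnd ℂ (fourier (k : ℤ) (x 0) : ℂ) * ((ξ (x, t) 1 : ℝ) : ℂ) :=
    funext fun t => mode_eq k ξ t
  rw [h6]
  exact h5.measurable


lemma lintegral_mode_le (σ : ℝ) (k : ℕ) (w : T2 × ℝ → R2) :
    ENNReal.ofReal ((1 + (k : ℝ) ^ 2) ^ σ) * ∫⁻ t in Icc (0 : ℝ) 1, ‖mode k w t‖ₑ ^ 2 ≤
      hsNormSq σ w := by
  unfold hsNormSq
  rw [← lintegral_const_mul' _ _ ENNReal.ofReal_ne_top]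
  apply lintegral_mono
  intro t
  refine le_trans ?_ (ENNReal.le_tsum ![(k : ℤ), 0])
  refine le_trans ?_ (Finset.single_le_sum (f := fun i : Fin 2 =>
    ENNReal.ofReal ((1 + ∑ j, ((![(k : ℤ), 0] : Fin 2 → ℤ) j : ℝ) ^ 2) ^ σ *
      ‖mFourierCoeff (fun x : T2 => ((w (x, t) i : ℝ) : ℂ)) ![(k : ℤ), 0]‖ ^ 2))
      (fun i _ => zero_le) (Finset.mem_univ (1 : Fin 2)))
  rw [ENNReal.ofReal_mul (by positivity)]
  have h1 : (1 + ∑ j, ((![(k : ℤ), 0] : Fin 2 → ℤ) j : ℝ) ^ 2) = 1 + (k : ℝ) ^ 2 := by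
    simp [Fin.sum_univ_two]
  have h2 : ‖mode k w t‖ₑ ^ 2 = ENNReal.ofReal (‖mFourierCoeff (fun x : T2 =>
      ((w (x, t) 1 : ℝ) : ℂ)) ![(k : ℤ), 0]‖ ^ 2) := by
    rw [ENNReal.ofReal_pow (norm_nonneg _), ofReal_norm]
    rfl
  rw [h1]
  exact le_of_eq (congrArg _ h2)

lemma mode_eulerian {s : ℝ} (γ : unitInterval → SDiff s) (hγ : ∀ t x, γ t x 0 = x 0) (k : ℕ)
    (w : T2 × ℝ → R2) (t : ℝ) : mode k (eulerian γ w) t = mode k w t := by
  rw [mode_eq, mode_eq]
  set η := γ (projIcc 0 1 zero_le_one t) with hη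
  have h1 : ∀ x : T2, η.toHomeo.symm x 0 = x 0 := by
    intro x
    have h := hγ (projIcc 0 1 zero_le_one t) (η.toHomeo.symm x)
    have h2 : η.toHomeo (η.toHomeo.symm x) = x := η.toHomeo.apply_symm_apply x
    have h3 : (γ (projIcc 0 1 zero_le_one t)).toHomeo (η.toHomeo.symm x) = x := h2
    rw [h3] at h
    exact h.symm
  have hmp : MeasurePreserving η.toHomeo.symm.toMeasurableEquiv volume volume :=
    MeasurePreserving.symm η.toHomeo.toMeasurableEquiv η.volumePreserving
  have h2 := hmp.integral_comp' (g := fun x : T2 =>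
    starRingEnd ℂ (fourier (k : ℤ) (x 0) : ℂ) * ((w (x, t) 1 : ℝ) : ℂ))
  rw [← h2]
  apply integral_congr_ae
  filter_upwards with x
  have h3 : η.toHomeo.symm.toMeasurableEquiv x = η.toHomeo.symm x := rfl
  rw [h3, h1]
  rfl

/-- The pairing of a shear with a field of given `L²([0,1]; H^σ)` norm. -/
lemma abs_inner_osc_le (ξ : L2) {a' : ℝ → ℝ} (ha' : Continuous a') {M : ℝ} (hM0 : 0 ≤ M)
    (hM : ∀ t ∈ Icc (0 : ℝ) 1, |a' t| ≤ M) {σ B : ℝ} (hB : 0 ≤ B) (k : ℕ)
    (hξ : ENNReal.ofReal ((1 + (k : ℝ) ^ 2) ^ σ) * ∫⁻ t in Icc (0 : ℝ) 1, ‖mode k ξ t‖ₑ ^ 2 ≤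
      ENNReal.ofReal (B ^ 2)) :
    |inner ℝ ((memLp_shearVel ha' (continuous_csin k)).toLp _) ξ| ≤
      M * (1 + (k : ℝ) ^ 2) ^ (-σ / 2) * B := by
  set K : ℝ := (1 + (k : ℝ) ^ 2) with hK
  have hKpos : 0 < K := by positivity
  -- a.e. integrability
  have hint : ∀ᵐ t ∂(volume.restrict (Icc (0 : ℝ) 1)),
      Integrable (fun x : T2 => ξ (x, t) 1) volume := by
    have h1 : Integrable ξ stMeasure := by
      have : IsFiniteMeasure stMeasure := by
        unfold stMeasure
        infer_instance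
      exact (Lp.memLp ξ).integrable one_le_two
    have h2 : Integrable (fun z => ξ z 1) stMeasure :=
      (EuclideanSpace.proj (𝕜 := ℝ) (1 : Fin 2)).integrable_comp h1
    exact h2.prod_left_ae
  have h1 : ‖inner ℝ ((memLp_shearVel ha' (continuous_csin k)).toLp _) ξ‖ₑ ≤
      ∫⁻ t in Icc (0 : ℝ) 1, ENNReal.ofReal M * ‖mode k ξ t‖ₑ := by
    rw [inner_shearVel ξ ha' (continuous_csin k)]
    refine (enorm_integral_le_lintegral_enorm _).trans ?_
    apply lintegral_mono_ae
    filter_upwards [hint, ae_restrict_mem measurableSet_Icc] with t ht htI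
    rw [enorm_mul]
    refine mul_le_mul' ?_ ?_
    · rw [← ofReal_norm]
      exact ENNReal.ofReal_le_ofReal (hM t htI)
    · rw [← ofReal_norm, ← ofReal_norm]
      exact ENNReal.ofReal_le_ofReal (abs_integral_csin_le k ht)
  have hmeas : AEMeasurable (fun t => ‖mode k ξ t‖ₑ) (volume.restrict (Icc (0 : ℝ) 1)) :=
    (measurable_mode k ξ).enorm.aemeasurable
  have h2 : ∫⁻ t in Icc (0 : ℝ) 1, ENNReal.ofReal M * ‖mode k ξ t‖ₑ ≤
      (∫⁻ t in Icc (0 : ℝ) 1, ENNReal.ofReal M ^ (2 : ℝ)) ^ (1 / 2 : ℝ) *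
        (∫⁻ t in Icc (0 : ℝ) 1, ‖mode k ξ t‖ₑ ^ (2 : ℝ)) ^ (1 / 2 : ℝ) :=
    ENNReal.lintegral_mul_le_Lp_mul_Lq _ Real.HolderConjugate.two_two aemeasurable_const hmeas
  have h3 : ∫⁻ t in Icc (0 : ℝ) 1, ENNReal.ofReal M ^ (2 : ℝ) = ENNReal.ofReal M ^ (2 : ℝ) := by
    simp
  have h4 : ∫⁻ t in Icc (0 : ℝ) 1, ‖mode k ξ t‖ₑ ^ (2 : ℝ) ≤ ENNReal.ofReal (K ^ (-σ) * B ^ 2) := by
    have h5 : ∫⁻ t in Icc (0 : ℝ) 1, ‖mode k ξ t‖ₑ ^ (2 : ℝ) =
        ∫⁻ t in Icc (0 : ℝ) 1, ‖mode k ξ t‖ₑ ^ 2 := by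
      congr 1
      funext t
      exact_mod_cast ENNReal.rpow_natCast _ 2
    rw [h5]
    have h6 : ENNReal.ofReal (K ^ (-σ)) * ENNReal.ofReal (K ^ σ) = 1 := by
      rw [← ENNReal.ofReal_mul (by positivity), ← Real.rpow_add hKpos]
      simp
    calc ∫⁻ t in Icc (0 : ℝ) 1, ‖mode k ξ t‖ₑ ^ 2
        = ENNReal.ofReal (K ^ (-σ)) * (ENNReal.ofReal (K ^ σ) *
            ∫⁻ t in Icc (0 : ℝ) 1, ‖mode k ξ t‖ₑ ^ 2) := by rw [← mul_assoc, h6, one_mul]
      _ ≤ ENNReal.ofReal (K ^ (-σ)) * ENNReal.ofReal (B ^ 2) := by gcongr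
      _ = _ := by rw [← ENNReal.ofReal_mul (by positivity)]
  have h5 : ‖inner ℝ ((memLp_shearVel ha' (continuous_csin k)).toLp _) ξ‖ₑ ≤
      ENNReal.ofReal (M * K ^ (-σ / 2) * B) := by
    refine (h1.trans h2).trans ?_
    rw [h3]
    have h6 : (ENNReal.ofReal M ^ (2 : ℝ)) ^ (1 / 2 : ℝ) = ENNReal.ofReal M := by
      rw [← ENNReal.rpow_mul]
      norm_num
    have h7 : ENNReal.ofReal (K ^ (-σ) * B ^ 2) ^ (1 / 2 : ℝ) = ENNReal.ofReal (K ^ (-σ / 2) * B) := by
      rw [ENNReal.ofReal_rpow_of_nonneg (by positivity) (by norm_num)]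
      congr 1
      rw [Real.mul_rpow (by positivity) (by positivity), ← Real.rpow_mul hKpos.le]
      congr 1
      · congr 1
        ring
      · rw [← Real.sqrt_eq_rpow, Real.sqrt_sq hB]
    rw [h6, mul_assoc, ENNReal.ofReal_mul hM0, ← h7]
    gcongr
  rw [← ofReal_norm] at h5
  exact (ENNReal.ofReal_le_ofReal_iff (by positivity)).1 h5


section

variable {s : ℝ} {φ : SDiff s} {F : Type*} [NormedAddCommGroup F] [NormedSpace ℝ F]
  {P : Type*} [TopologicalSpace P] [ChartedSpace F P]

/-- **Strong norms.** If the norms dominate the `L²([0,1]; H^σ)` norm (for some `σ > 0`) of the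
variation of the velocity, in Lagrangian or in Eulerian form, at the curves of energy `e > 0`, then
there is a sequence with `E = e`, `‖dE‖ → 0` without any subsequence converging in measure. -/
theorem PathSpace.exists_oscillating_sequence (hφ : ∀ x, φ x = x) (Γ : PathSpace s φ F P)
    (ν : TangentNorm F P) {σ C e : ℝ} (hσ : 0 < σ) (he : 0 < e)
    (hdom : ∀ p, Γ.energy p = e → ∀ v,
      hsNormSq σ (Γ.dVelocity p v) ≤ ENNReal.ofReal ((C * ν.nrm p v) ^ 2) ∨
      hsNormSq σ (eulerian (Γ.curve p) (Γ.dVelocity p v)) ≤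
        ENNReal.ofReal ((C * ν.nrm p v) ^ 2)) :
    ∃ u : ℕ → P, (∀ n, Γ.energy (u n) = e) ∧
      (∃ ε : ℕ → ℝ, Tendsto ε atTop (𝓝 0) ∧ ∀ n (v : TangentSpace 𝓘(ℝ, F) (u n)),
        |differential Γ.energy (u n) v| ≤ ε n * ν.nrm (u n) v) ∧
      ∀ j : ℕ → ℕ, StrictMono j → ∀ t : unitInterval, 0 < (t : ℝ) → (t : ℝ) < 1 →
        ∀ f : T2 → T2, ¬ TendstoInMeasure volume (fun n x => Γ.curve (u (j n)) t x) atTop f := by
  set A : ℝ := √(3 * e) with hAdef
  have hA2 : A ^ 2 = 3 * e := Real.sq_sqrt (by positivity)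
  have hApos : 0 < A := Real.sqrt_pos.2 (by positivity)
  set a : ℝ → ℝ := fun t => A * amp t with ha
  have hasm : ContDiff ℝ ∞ a := contDiff_const.mul contDiff_amp
  have ha0 : a 0 = 0 := by simp [ha, amp]
  have ha1 : a 1 = 0 := by simp [ha, amp]
  have hp : ∀ k : ℕ, ∃ p : P, ∀ t x, Γ.curve p t x = oscPath s a (k + 1) t x := fun k =>
    Γ.smooth_mem _ (isSmoothPath_oscPath s hasm (k + 1))
      (fun x => oscPath_eq_self s (k + 1) (by simpa using ha0) x)
      (fun x => by rw [oscPath_eq_self s (k + 1) (by simpa using ha1) x, hφ])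
  choose q hq using hp
  have hcont' : Continuous fun t : ℝ => A * (2 - 4 * t) := by fun_prop
  have hderiv : ∀ t, HasDerivAt a (A * (2 - 4 * t)) t := fun t => (hasDerivAt_amp t).const_mul A
  have hvel : ∀ k, Γ.velocity (q k) =
      (memLp_shearVel hcont' (continuous_csin (k + 1))).toLp _ := by
    intro k
    refine (Γ.isVelocity (q k)).unique (IsVelocity.congr ?_ (MemLp.coeFn_toLp _).symm)
    refine isVelocity_shear hcont' hderiv ha0 ?_
    intro t x
    rw [hq, oscPath_eq_add]
  have hE : ∀ k, Γ.energy (q k) = e := by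
    intro k
    unfold PathSpace.energy
    rw [hvel, norm_toLp_shearVel hcont' (continuous_csin (k + 1)), integral_csin_sq (by omega)]
    have h1 : ∫ t in Icc (0 : ℝ) 1, (A * (2 - 4 * t)) ^ 2 = A ^ 2 * (4 / 3) := by
      rw [integral_Icc_eq_integral_Ioc, ← intervalIntegral.integral_of_le zero_le_one]
      have h2 : ∀ t : ℝ, HasDerivAt (fun t : ℝ => -(A ^ 2 / 12) * (2 - 4 * t) ^ 3)
          ((A * (2 - 4 * t)) ^ 2) t := by
        intro t
        have h3 : HasDerivAt (fun t : ℝ => 2 - 4 * t) (-(4 * 1)) t :=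
          ((hasDerivAt_id t).const_mul 4).const_sub 2
        have h4 := (h3.pow 3).const_mul (-(A ^ 2 / 12))
        refine h4.congr_deriv ?_
        push_cast
        ring
      rw [intervalIntegral.integral_eq_sub_of_hasDerivAt (fun t _ => h2 t)
        ((hcont'.pow 2).intervalIntegrable _ _)]
      ring
    rw [h1, hA2]
    ring
  refine ⟨q, hE, ?_, ?_⟩
  · refine ⟨fun n => 2 * A * (1 + ((n + 1 : ℕ) : ℝ) ^ 2) ^ (-σ / 2) * |C|, ?_, ?_⟩
    · have h1 : Tendsto (fun n : ℕ => (1 + ((n + 1 : ℕ) : ℝ) ^ 2)) atTop atTop := by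
        refine tendsto_atTop_add_const_left _ _ ?_
        refine (tendsto_pow_atTop two_ne_zero).comp ?_
        exact tendsto_natCast_atTop_atTop.comp (tendsto_add_atTop_nat 1)
      have h2 : Tendsto (fun x : ℝ => x ^ (-(σ / 2))) atTop (𝓝 0) :=
        tendsto_rpow_neg_atTop (by positivity)
      have h3 := ((h2.comp h1).const_mul (2 * A)).mul_const |C|
      simp only [mul_zero, zero_mul] at h3
      refine h3.congr fun n => ?_
      simp only [Function.comp_apply, neg_div]
    · intro n v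
      rw [PathSpace.differential_energy, hvel]
      have hM : ∀ t ∈ Icc (0 : ℝ) 1, |A * (2 - 4 * t)| ≤ 2 * A := by
        intro t ht
        rw [abs_mul, abs_of_pos hApos, mul_comm]
        gcongr
        rw [abs_le]
        constructor <;> linarith [ht.1, ht.2]
      have hnn : 0 ≤ |C| * ν.nrm (q n) v := mul_nonneg (abs_nonneg _) (ν.nonneg _ _)
      have hB : (C * ν.nrm (q n) v) ^ 2 = (|C| * ν.nrm (q n) v) ^ 2 := by
        rw [mul_pow, mul_pow, sq_abs]
      have hpres : ∀ t x, Γ.curve (q n) t x 0 = x 0 := by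
        intro t x
        rw [hq, oscPath_apply]
        rfl
      have h1 := abs_inner_osc_le (Γ.dVelocity (q n) v) hcont' (by positivity) hM (σ := σ) hnn
        (n + 1) (by
          rw [← hB]
          rcases hdom (q n) (hE n) v with h | h
          · exact (lintegral_mode_le σ (n + 1) _).trans h
          · refine le_trans ?_ ((lintegral_mode_le σ (n + 1) _).trans h)
            simp_rw [mode_eulerian (Γ.curve (q n)) hpres]
            exact le_rfl)
      rw [mul_assoc (2 * A * _)]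
      exact h1
  · intro j hj t ht0 ht1 f
    have hAne : a t ≠ 0 := by
      simp only [ha, amp]
      have : 0 < 1 - (t : ℝ) := by linarith
      positivity
    have hn : Tendsto (fun n => j n + 1) atTop atTop :=
      (tendsto_add_atTop_nat 1).comp hj.tendsto_atTop
    have h1 := not_tendstoInMeasure hAne hn f
    have h2 : (fun (n : ℕ) (x : T2) => (Γ.curve (q (j n)) t x : T2)) = fun n (x : T2) =>
        x + proj ((a t * csin (j n + 1) (x 0)) • EuclideanSpace.single 1 (1 : ℝ)) := by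
      funext n x
      rw [hq, oscPath_eq_add]
    rw [h2]
    exact h1

end

end Pool.Agent.Lib.MP_45c189_gt
end
end
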