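import Pool.Agent.Lib.MP_45c189_gt.PathSpace
import Pool.Agent.Lib.MP_45c189_gt.Main

/-!
# Weak norms: failure of the Palais–Smale condition near the constant curve
-/

open Filter Topology Set MeasureTheory
open scoped Manifold ContDiff ENNReal

noncomputable section

namespace Pool.Agent.Lib.MP_45c189_gt

section

variable {s : ℝ} {φ : SDiff s} {F : Type*} [NormedAddCommGroup F] [NormedSpace ℝ F]
  {P : Type*} [TopologicalSpace P] [ChartedSpace F P]

lemma PathSpace.differential_energy (Γ : PathSpace s φ F P) (p : P)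
    (v : TangentSpace 𝓘(ℝ, F) p) :
    differential Γ.energy p v = inner ℝ (Γ.velocity p) (Γ.dVelocity p v) := by
  have h1 : MDifferentiableAt 𝓘(ℝ, F) 𝓘(ℝ, L2) Γ.velocity p :=
    ContMDiff.mdifferentiableAt Γ.velocity_isC1 one_ne_zero
  have h2 : HasFDerivAt (fun w : L2 => (1 / 2 : ℝ) * ‖w‖ ^ 2)
      ((1 / 2 : ℝ) • (2 • (innerSL ℝ (Γ.velocity p)))) (Γ.velocity p) := by
    have := (hasStrictFDerivAt_norm_sq (Γ.velocity p)).hasFDerivAt.const_mul (1 / 2 : ℝ)
    exact this
  have h3 := h2.hasMFDerivAt.comp p h1.hasMFDerivAt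
  have h4 : (mfderiv 𝓘(ℝ, F) 𝓘(ℝ, ℝ) Γ.energy p : F →L[ℝ] ℝ) =
    (((1 / 2 : ℝ) • (2 • (innerSL ℝ (Γ.velocity p))) : L2 →L[ℝ] ℝ)).comp
      (mfderiv 𝓘(ℝ, F) 𝓘(ℝ, L2) Γ.velocity p : F →L[ℝ] L2) := h3.mfderiv
  have h5 := DFunLike.congr_fun h4 (v : F)
  refine h5.trans ?_
  change (1 / 2 : ℝ) • (2 • inner ℝ (Γ.velocity p) (Γ.dVelocity p v)) = _
  rw [smul_eq_mul, nsmul_eq_mul]
  push_cast
  ring

/-- The velocity of the shear path with amplitude `a` and profile `v`. -/
def shearVel (a' : ℝ → ℝ) (v : UnitAddCircle → ℝ) (z : T2 × ℝ) : R2 :=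
  (a' z.2 * v (z.1 0)) • EuclideanSpace.single 1 (1 : ℝ)

lemma continuous_shearVel {a' : ℝ → ℝ} {v : UnitAddCircle → ℝ} (ha' : Continuous a')
    (hv : Continuous v) : Continuous (shearVel a' v) := by
  unfold shearVel
  exact ((ha'.comp continuous_snd).mul (hv.comp ((continuous_apply 0).comp
    continuous_fst))).smul continuous_const

lemma norm_shearVel (a' : ℝ → ℝ) (v : UnitAddCircle → ℝ) (z : T2 × ℝ) :
    ‖shearVel a' v z‖ ^ 2 = v (z.1 0) ^ 2 * a' z.2 ^ 2 := by
  unfold shearVel
  rw [norm_smul, PiLp.norm_single, norm_one, mul_one, Real.norm_eq_abs, sq_abs]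
  ring

lemma integrable_sq_shearVel {a' : ℝ → ℝ} {v : UnitAddCircle → ℝ} (ha' : Continuous a')
    (hv : Continuous v) : Integrable (fun z => ‖shearVel a' v z‖ ^ 2) stMeasure := by
  simp_rw [norm_shearVel]
  have h1 : Integrable (fun x : T2 => v (x 0) ^ 2) volume :=
    ((hv.comp (continuous_apply 0)).pow 2).integrable_of_hasCompactSupport
      (HasCompactSupport.of_compactSpace _)
  have h2 : Integrable (fun t => a' t ^ 2) (volume.restrict (Icc (0 : ℝ) 1)) :=
    (ha'.pow 2).continuousOn.integrableOn_compact isCompact_Icc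
  exact h1.mul_prod h2

lemma memLp_shearVel {a' : ℝ → ℝ} {v : UnitAddCircle → ℝ} (ha' : Continuous a')
    (hv : Continuous v) : MemLp (shearVel a' v) 2 stMeasure :=
  (memLp_two_iff_integrable_sq_norm (continuous_shearVel ha' hv).aestronglyMeasurable).2
    (integrable_sq_shearVel ha' hv)

lemma norm_toLp_shearVel {a' : ℝ → ℝ} {v : UnitAddCircle → ℝ} (ha' : Continuous a')
    (hv : Continuous v) : ‖(memLp_shearVel ha' hv).toLp _‖ ^ 2 =
      (∫ x : T2, v (x 0) ^ 2) * ∫ t in Icc (0 : ℝ) 1, a' t ^ 2 := by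
  rw [norm_toLp_sq]
  simp_rw [norm_shearVel]
  unfold stMeasure
  exact integral_prod_mul (fun x : T2 => v (x 0) ^ 2) (fun t => a' t ^ 2)

/-- The velocity of a curve of shears. -/
lemma isVelocity_shear {γ : unitInterval → T2 → T2} {a a' : ℝ → ℝ} {v : UnitAddCircle → ℝ}
    (ha' : Continuous a') (haa' : ∀ t, HasDerivAt a (a' t) t) (ha0 : a 0 = 0)
    (hγ : ∀ (t : unitInterval) x,
      γ t x = x + proj ((a t * v (x 0)) • EuclideanSpace.single 1 (1 : ℝ))) :
    IsVelocity γ (shearVel a' v) := by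
  filter_upwards with x t
  have hI : ∫ τ in (0 : ℝ)..t, shearVel a' v (x, τ) =
      (a t * v (x 0)) • EuclideanSpace.single (1 : Fin 2) (1 : ℝ) := by
    change ∫ τ in (0 : ℝ)..t, (a' τ * v (x 0)) • EuclideanSpace.single (1 : Fin 2) (1 : ℝ) = _
    rw [intervalIntegral.integral_smul_const, intervalIntegral.integral_mul_const,
      intervalIntegral.integral_eq_sub_of_hasDerivAt (fun τ _ => haa' τ)
        (ha'.intervalIntegrable _ _), ha0, sub_zero]
  have h0 : γ 0 x = x := by
    rw [hγ]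
    have : a ((0 : unitInterval) : ℝ) = 0 := by simpa using ha0
    rw [this, zero_mul, zero_smul, proj_zero, add_zero]
  rw [hI, h0, hγ]

/-- The amplitude `2t(1-t)`. -/
def amp (t : ℝ) : ℝ := 2 * t * (1 - t)

lemma contDiff_amp : ContDiff ℝ ∞ amp := by
  unfold amp
  exact (contDiff_const.mul contDiff_id).mul (contDiff_const.sub contDiff_id)

lemma hasDerivAt_amp (τ : ℝ) : HasDerivAt amp (2 - 4 * τ) τ := by
  have h1 : HasDerivAt (fun t : ℝ => 2 * t * (1 - t)) (2 * 1 * (1 - τ) + 2 * τ * (0 - 1)) τ :=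
    ((hasDerivAt_id τ).const_mul 2).mul ((hasDerivAt_const τ (1 : ℝ)).sub (hasDerivAt_id τ))
  have h2 : (2 - 4 * τ) = (2 * 1 * (1 - τ) + 2 * τ * (0 - 1)) := by ring
  rw [h2]
  exact h1

/-- **Weak norms.** If the norms dominate the `L²` norm of the variation of the velocity at low
energies, then there is a sequence with `E → 0`, `‖dE‖ → 0` without any subsequence converging
pointwise to a curve of the path space. -/
theorem PathSpace.exists_bad_sequence (hφ : ∀ x, φ x = x) (Γ : PathSpace s φ F P)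
    (ν : TangentNorm F P) {a C : ℝ} (ha : 0 < a)
    (hdom : ∀ p, Γ.energy p ≤ a → ∀ v, ‖Γ.dVelocity p v‖ ≤ C * ν.nrm p v) :
    ∃ u : ℕ → P, Tendsto (fun n => Γ.energy (u n)) atTop (𝓝 0) ∧
      (∃ ε : ℕ → ℝ, Tendsto ε atTop (𝓝 0) ∧ ∀ n (v : TangentSpace 𝓘(ℝ, F) (u n)),
        |differential Γ.energy (u n) v| ≤ ε n * ν.nrm (u n) v) ∧
      ∀ j : ℕ → ℕ, StrictMono j → ∀ p : P, ¬ ∀ (t : unitInterval) (x : T2),
        Tendsto (fun n => Γ.curve (u (j n)) t x) atTop (𝓝 (Γ.curve p t x)) := by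
  have hamp0 : amp 0 = 0 := by simp [amp]
  have hamp1 : amp 1 = 0 := by simp [amp]
  have hp : ∀ k : ℕ, ∃ p : P, ∀ t x, Γ.curve p t x = shearPath s amp k t x := fun k =>
    Γ.smooth_mem _ (isSmoothPath_shearPath s contDiff_amp k)
      (fun x => shearPath_eq_self s k (by simpa using hamp0) x)
      (fun x => by rw [shearPath_eq_self s k (by simpa using hamp1) x, hφ])
  choose q hq using hp
  have hcont' : Continuous fun t : ℝ => 2 - 4 * t := by fun_prop
  have hvel : ∀ k, Γ.velocity (q k) =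
      (memLp_shearVel hcont' (continuous_cbump k)).toLp _ := by
    intro k
    refine (Γ.isVelocity (q k)).unique (IsVelocity.congr ?_ (MemLp.coeFn_toLp _).symm)
    refine isVelocity_shear hcont' hasDerivAt_amp hamp0 ?_
    intro t x
    rw [hq, shearPath_eq_add]
  have hE : Tendsto (fun k => Γ.energy (q k)) atTop (𝓝 0) := by
    have h1 : ∀ k, Γ.energy (q k) = (1 / 2 : ℝ) * ((∫ x : T2, cbump k (x 0) ^ 2) *
        ∫ t in Icc (0 : ℝ) 1, (2 - 4 * t) ^ 2) := by
      intro k
      unfold PathSpace.energy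
      rw [hvel, norm_toLp_shearVel hcont' (continuous_cbump k)]
    simp_rw [h1]
    simpa using (tendsto_integral_cbump.mul_const (∫ t in Icc (0 : ℝ) 1, (2 - 4 * t) ^ 2)).const_mul
      (1 / 2 : ℝ)
  obtain ⟨N, hN⟩ := (eventually_atTop.1 (hE.eventually_le_const ha))
  have hE' : Tendsto (fun n => Γ.energy (q (n + N))) atTop (𝓝 0) :=
    hE.comp (tendsto_add_atTop_nat N)
  refine ⟨fun n => q (n + N), hE', ?_, ?_⟩
  · refine ⟨fun n => √(2 * Γ.energy (q (n + N))) * C, ?_, ?_⟩
    · have h1 := (Real.continuous_sqrt.tendsto 0).comp (by simpa using hE'.const_mul 2)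
      rw [Real.sqrt_zero] at h1
      simpa using h1.mul_const C
    · intro n v
      have hle : Γ.energy (q (n + N)) ≤ a := hN _ (Nat.le_add_left _ _)
      have hsq : √(2 * Γ.energy (q (n + N))) = ‖Γ.velocity (q (n + N))‖ := by
        unfold PathSpace.energy
        rw [← mul_assoc, mul_one_div_cancel two_ne_zero, one_mul, Real.sqrt_sq (norm_nonneg _)]
      have key : |inner ℝ (Γ.velocity (q (n + N))) (Γ.dVelocity (q (n + N)) v)| ≤
          √(2 * Γ.energy (q (n + N))) * C * ν.nrm (q (n + N)) v := by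
        rw [hsq, mul_assoc]
        refine (abs_real_inner_le_norm _ _).trans ?_
        exact mul_le_mul_of_nonneg_left (hdom _ hle v) (norm_nonneg _)
      rw [PathSpace.differential_energy]
      exact key
  · intro j hj p hconv
    have hconv' : ∀ x, Tendsto (fun n => Γ.curve (q (j n + N)) half x) atTop
        (𝓝 (Γ.curve p half x)) := fun x => hconv half x
    have hform : ∀ k x, Γ.curve (q k) half x =
        x + proj ((1 / 2 * cbump k (x 0)) • EuclideanSpace.single 1 (1 : ℝ)) := by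
      intro k x
      have h12 : amp ((half : unitInterval) : ℝ) = 1 / 2 := by
        change amp (1 / 2) = 1 / 2
        norm_num [amp]
      rw [hq, shearPath_eq_add, h12]
    have hkj : Tendsto (fun n => j n + N) atTop atTop :=
      (tendsto_add_atTop_nat N).comp hj.tendsto_atTop
    have hae : (fun x => Γ.curve p half x) =ᵐ[volume] fun x => x := by
      filter_upwards [ae_ne_zero] with x hx
      refine tendsto_nhds_unique (hconv' x) ?_
      simp_rw [hform]
      have h1 : Tendsto (fun n => (1 / 2 * cbump (j n + N) (x 0)) •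
          EuclideanSpace.single (1 : Fin 2) (1 : ℝ)) atTop
          (𝓝 ((1 / 2 * (0 : ℝ)) • EuclideanSpace.single (1 : Fin 2) (1 : ℝ))) :=
        (((tendsto_cbump hx).comp hkj).const_mul (1 / 2)).smul_const _
      have h2 := ((continuous_proj.tendsto _).comp h1).const_add x
      simpa using h2
    have heq : (fun x => Γ.curve p half x) = fun x => x :=
      (Continuous.ae_eq_iff_eq volume (Γ.curve p half).toHomeo.continuous continuous_id).1 hae
    have h1 : Γ.curve p half 0 = proj ((1 / 2 : ℝ) • EuclideanSpace.single 1 (1 : ℝ)) := by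
      refine tendsto_nhds_unique (hconv' 0) ?_
      simp_rw [hform, zero_add, Pi.zero_apply, cbump_zero, mul_one]
      exact tendsto_const_nhds
    have h2 : Γ.curve p half 0 = 0 := congr_fun heq 0
    rw [h2] at h1
    have h3 := congr_fun h1 1
    simp only [proj, Pi.zero_apply, PiLp.smul_apply, smul_eq_mul] at h3
    apply half_ne_zero
    rw [h3]
    simp

end

end Pool.Agent.Lib.MP_45c189_gt
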